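import Pool.Agent.Work.MP_ad0563_ag_helper39.G3

/-!
Block G4 (smooth chart of type 3), given G1, N2, Sym.
-/

set_option linter.unusedSectionVars false

namespace Pool.Agent.MPad0563

variable {K : Type} [Field K] [Algebra ℂ K]

lemma rel3 {t x y a b : K} (h : IsDatum t x y a b) (hx : x ≠ 0) (ha : a ≠ 0) :
    (y / x) ^ 3 + 1 + (a ^ 3 / x) ^ 3 * (a⁻¹ ^ 9 + (t / a) ^ 9) = 0 := by
  have := h.rel
  field_simp
  linear_combination this

lemma rel_diff3 {t x y a b : K} (h : IsDatum t x y a b) (hx : x ≠ 0) (ha : a ≠ 0) :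
    (y / x) ^ 2 • dd (y / x) + ((a ^ 3 / x) ^ 2 * (a⁻¹ ^ 9 + (t / a) ^ 9)) • dd (a ^ 3 / x) +
      ((3 * (a ^ 3 / x) ^ 3 * a⁻¹ ^ 8) • dd a⁻¹ +
        (3 * (a ^ 3 / x) ^ 3 * (t / a) ^ 8) • dd (t / a)) = 0 := by
  have h0 := rel3 h hx ha
  generalize (y / x) = η at *
  generalize (a ^ 3 / x) = r at *
  generalize (t / a) = s at *
  generalize a⁻¹ = A at *
  have h1 : KaehlerDifferential.D ℂ K (η ^ 3 + 1 + r ^ 3 * (A ^ 9 + s ^ 9)) = 0 := by
    rw [h0, map_zero]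
  rw [map_add, map_add, Derivation.leibniz, Derivation.leibniz_pow, Derivation.leibniz_pow,
    map_add, Derivation.leibniz_pow, Derivation.leibniz_pow,
    Derivation.map_one_eq_zero, add_zero] at h1
  simp only [Nat.add_one_sub_one, ← Nat.cast_smul_eq_nsmul K] at h1
  have hchar : CharZero K := charZero_of_injective_algebraMap (algebraMap ℂ K).injective
  have h2 : (3 : K)⁻¹ • (((3 : ℕ) : K) • η ^ 2 • dd η + (r ^ 3 •
      (((9 : ℕ) : K) • A ^ 8 • dd A + ((9 : ℕ) : K) • s ^ 8 • dd s) +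
        (A ^ 9 + s ^ 9) • ((3 : ℕ) : K) • r ^ 2 • dd r)) = 0 := by
    rw [show (((3 : ℕ) : K) • η ^ 2 • dd η + (r ^ 3 •
      (((9 : ℕ) : K) • A ^ 8 • dd A + ((9 : ℕ) : K) • s ^ 8 • dd s) +
        (A ^ 9 + s ^ 9) • ((3 : ℕ) : K) • r ^ 2 • dd r)) = 0
      from h1, smul_zero]
  simp only [smul_add, smul_smul] at h2
  have h3 : (3 : K)⁻¹ * (((3 : ℕ) : K) * η ^ 2) = η ^ 2 := by
    push_cast
    rw [inv_mul_cancel_left₀ (by norm_num)]
  have h4 : ∀ p : K, (3 : K)⁻¹ * (r ^ 3 * (((9 : ℕ) : K) * p ^ 8)) = 3 * r ^ 3 * p ^ 8 := by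
    intro p
    push_cast
    rw [show r ^ 3 * (9 * p ^ 8) = 3 * (3 * r ^ 3 * p ^ 8) by ring,
      inv_mul_cancel_left₀ (by norm_num)]
  have h5 : (3 : K)⁻¹ * ((A ^ 9 + s ^ 9) * (((3 : ℕ) : K) * r ^ 2)) =
      r ^ 2 * (A ^ 9 + s ^ 9) := by
    push_cast
    rw [show (A ^ 9 + s ^ 9) * (3 * r ^ 2) = 3 * (r ^ 2 * (A ^ 9 + s ^ 9)) by ring,
      inv_mul_cancel_left₀ (by norm_num)]
  rw [h3, h4, h4, h5] at h2
  rw [add_assoc, add_comm ((r ^ 2 * (A ^ 9 + s ^ 9)) • dd r)]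
  exact h2

lemma gen3 {t x y a b : K} (h : IsDatum t x y a b) (hx : x ≠ 0) (ha : a ≠ 0) :
    IntermediateField.adjoin ℂ {a⁻¹, t / a, b / a, a ^ 3 / x, x / a ^ 3, y / x} = ⊤ := by
  apply adjoin_top_of h
  set F := IntermediateField.adjoin ℂ ({a⁻¹, t / a, b / a, a ^ 3 / x, x / a ^ 3, y / x} : Set K)
    with hF
  have hm : ∀ s ∈ ({a⁻¹, t / a, b / a, a ^ 3 / x, x / a ^ 3, y / x} : Set K), s ∈ F := fun s hs =>
    IntermediateField.subset_adjoin ℂ _ hs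
  have ham : a ∈ F := by
    have := IntermediateField.inv_mem _ (hm a⁻¹ (by simp))
    rwa [inv_inv] at this
  have hxm : x ∈ F := by
    have := IntermediateField.mul_mem _ (hm (x / a ^ 3) (by simp)) (pow_mem ham 3)
    rwa [div_mul_cancel₀ _ (pow_ne_zero _ ha)] at this
  intro s hs
  simp only [Set.mem_insert_iff, Set.mem_singleton_iff] at hs
  rcases hs with hs | hs | hs | hs | hs
  · have := IntermediateField.mul_mem _ (hm (t / a) (by simp)) ham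
    rwa [div_mul_cancel₀ _ ha, ← hs] at this
  · rw [hs]; exact hxm
  · have := IntermediateField.mul_mem _ (hm (y / x) (by simp)) hxm
    rwa [div_mul_cancel₀ _ hx, ← hs] at this
  · rw [hs]; exact ham
  · have := IntermediateField.mul_mem _ (hm (b / a) (by simp)) ham
    rwa [div_mul_cancel₀ _ ha, ← hs] at this

lemma dd_inv' {u v : K} (h : u * v = 1) : dd v = (-(v ^ 2)) • dd u := by
  have h1 : KaehlerDifferential.D ℂ K (u * v) = 0 := by
    rw [h, Derivation.map_one_eq_zero]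
  rw [Derivation.leibniz] at h1
  have h2 : u • dd v = -(v • dd u) := eq_neg_of_add_eq_zero_left h1
  have h3 : dd v = v • (u • dd v) := by
    rw [smul_smul, mul_comm v u, h, one_smul]
  rw [h3, h2, smul_neg, smul_smul, neg_smul, sq]

theorem stmt_G4 (hN2 : Stmt_N2) (hG1 : Stmt_G1) (hSym : Stmt_Sym) : Stmt_G4 := by
  intro K _ _ t x y a b h V hV hBV hu
  obtain ⟨-, -, -, -, -, hw6, -, -, -⟩ := hG1 K t x y a b h
  obtain ⟨-, -, hcl, -⟩ := hN2 K t x y a b h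
  obtain ⟨ht0, hx0, hy0, ha0, hb0⟩ := datum_ne_zero hSym h
  have hmem : ∀ s ∈ ({a⁻¹, t / a, b / a, a ^ 3 / x, x / a ^ 3, y / x} : Set K),
      s ∈ algT3 t x y a b := fun s hs => Algebra.subset_adjoin hs
  have hA := hmem a⁻¹ (by simp)
  have hs' := hmem (t / a) (by simp)
  have hb := hmem (b / a) (by simp)
  have hr := hmem (a ^ 3 / x) (by simp)
  have hri := hmem (x / a ^ 3) (by simp)
  have hη := hmem (y / x) (by simp)
  have h3 := isUnitOf_three (K := K) hV.const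
  have hAV := hBV _ hA
  have hsV := hBV _ hs'
  have hrV := hBV _ hr
  have hriV := hBV _ hri
  have hfin : ({a⁻¹, t / a, b / a, a ^ 3 / x, x / a ^ 3, y / x} : Set K).Finite := Set.toFinite _
  have hd := rel_diff3 h hx0 ha0
  have hq : (-(((y / x) ^ 2)⁻¹ * ((a ^ 3 / x) ^ 2 * (a⁻¹ ^ 9 + (t / a) ^ 9)))) ∈ V :=
    V.neg_mem _ (V.mul_mem _ _ (hu.pow 2).2.2 (V.mul_mem _ _ (V.pow_mem hrV _)
      (V.add_mem _ _ (V.pow_mem hAV _) (V.pow_mem hsV _))))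
  have hqi : (-(((y / x) ^ 2)⁻¹ * (1 : K))) ∈ V := by
    rw [mul_one]; exact V.neg_mem _ (hu.pow 2).2.2
  have h8A : (3 * (a ^ 3 / x) ^ 3 * a⁻¹ ^ 8 : K) ∈ V :=
    V.mul_mem _ _ (V.mul_mem _ _ h3.2.1 (V.pow_mem hrV _)) (V.pow_mem hAV _)
  have h8s : (3 * (a ^ 3 / x) ^ 3 * (t / a) ^ 8 : K) ∈ V :=
    V.mul_mem _ _ (V.mul_mem _ _ h3.2.1 (V.pow_mem hrV _)) (V.pow_mem hsV _)
  have hinv : (a ^ 3 / x) * (x / a ^ 3) = 1 := by field_simp
  refine chart_case h.trdeg {a⁻¹, t / a, b / a, a ^ 3 / x, x / a ^ 3, y / x} hfin hcl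
    (gen3 h hx0 ha0) V hV hBV ![t / a, a ^ 3 / x, a⁻¹, b / a] ?_ ?_ ((y / x) ^ 2)⁻¹
    (hu.pow 2).inv _ ?_
  · intro i; fin_cases i
    exacts [hs', hr, hA, hb]
  · have m0 : dd (t / a) ∈
      Set.range fun i => dd ((![t / a, a ^ 3 / x, a⁻¹, b / a] : Fin 4 → K) i) := ⟨0, rfl⟩
    have m1 : dd (a ^ 3 / x) ∈
      Set.range fun i => dd ((![t / a, a ^ 3 / x, a⁻¹, b / a] : Fin 4 → K) i) := ⟨1, rfl⟩
    have m2 : dd a⁻¹ ∈
      Set.range fun i => dd ((![t / a, a ^ 3 / x, a⁻¹, b / a] : Fin 4 → K) i) := ⟨2, rfl⟩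
    have m3 : dd (b / a) ∈
      Set.range fun i => dd ((![t / a, a ^ 3 / x, a⁻¹, b / a] : Fin 4 → K) i) := ⟨3, rfl⟩
    intro s hs
    simp only [Set.mem_insert_iff, Set.mem_singleton_iff] at hs
    rcases hs with hs | hs | hs | hs | hs | hs <;> rw [hs]
    · exact mem_lat m2
    · exact mem_lat m0
    · exact mem_lat m3
    · exact mem_lat m1
    · rw [dd_inv' hinv]
      exact mem_lat_smul (V.neg_mem _ (V.pow_mem hriV _)) m1
    · have hd' : (y / x) ^ 2 • dd (y / x) +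
          ((a ^ 3 / x) ^ 2 * (a⁻¹ ^ 9 + (t / a) ^ 9)) • dd (a ^ 3 / x) +
          (1 : K) • ((3 * (a ^ 3 / x) ^ 3 * a⁻¹ ^ 8) • dd a⁻¹ +
            (3 * (a ^ 3 / x) ^ 3 * (t / a) ^ 8) • dd (t / a)) = 0 := by
        rw [one_smul]; exact hd
      rw [solve_first (hu.pow 2).1 hd']
      refine AddSubgroup.add_mem _ (mem_lat_smul hq m1) ?_
      exact lat_smul hqi (lat_comb h8A h8s m2 m0)
  · rw [hw6, smul_smul]
    have hc : ((y / x) ^ 2)⁻¹ * (a⁻¹ * (y / x) ^ 2) = a⁻¹ := by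
      have h2 := (hu.pow 2).1
      generalize ((y / x) ^ 2) = q at *
      rw [mul_comm a⁻¹ q, inv_mul_cancel_left₀ h2]
    rw [hc]

end Pool.Agent.MPad0563
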