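import Pool.Agent.Work.MP_ad0563_ag.BlockA
import Pool.Agent.Work.MP_ad0563_ag_h67.Der

/-!
# MP_ad0563_ag : block G1 (wedge identities)
-/

open MvPolynomial

namespace Pool.Agent.MPad0563

section det
variable {K M N : Type} [Field K] [AddCommGroup M] [Module K M] [AddCommGroup N] [Module K N]

/-- the determinant formula for alternating maps. -/
lemma alt_sum_eq_det {n : ℕ} (f : M [⋀^Fin n]→ₗ[K] N) (A : Matrix (Fin n) (Fin n) K)
    (u : Fin n → M) : f (fun i => ∑ j, A i j • u j) = A.det • f u := by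
  let g : (Fin n → K) →ₗ[K] M := Fintype.linearCombination K u
  let f1 : (Fin n → K) [⋀^Fin n]→ₗ[K] N := f.compLinearMap g
  let f2 : (Fin n → K) [⋀^Fin n]→ₗ[K] N :=
    (LinearMap.toSpanSingleton K N (f u)).compAlternatingMap Matrix.detRowAlternating
  have hg : ∀ i, g (Pi.basisFun K (Fin n) i) = u i := by
    intro i
    simp [g, Fintype.linearCombination_apply, Pi.single_apply]
  have h12 : f1 = f2 := by
    apply Module.Basis.ext_alternating (Pi.basisFun K (Fin n))
    intro v hv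
    set σ : Equiv.Perm (Fin n) := Equiv.ofBijective v (Finite.injective_iff_bijective.1 hv) with hσ
    have e : (fun i => (Pi.basisFun K (Fin n)) (v i)) =
        (fun i => (Pi.basisFun K (Fin n)) i) ∘ σ := rfl
    have e1 : f1 (fun i => (Pi.basisFun K (Fin n)) i) = f u := by
      show f (fun i => g ((Pi.basisFun K (Fin n)) i)) = f u
      simp only [hg]
    have e2 : f2 (fun i => (Pi.basisFun K (Fin n)) i) = f u := by
      show (Matrix.detRowAlternating (fun i => (Pi.basisFun K (Fin n)) i)) • f u = f u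
      have : (fun i => (Pi.basisFun K (Fin n)) i) = (1 : Matrix (Fin n) (Fin n) K) := by
        funext i j
        simp [Matrix.one_apply, Pi.single_apply, eq_comm]
      rw [this]
      show (Matrix.det 1) • f u = f u
      rw [Matrix.det_one, one_smul]
    rw [e, AlternatingMap.map_perm, AlternatingMap.map_perm, e1, e2]
  have h3 : f1 (fun i => A i) = f2 (fun i => A i) := by rw [h12]
  exact h3

end det

section wedge
variable {K : Type} [Field K] [Algebra ℂ K]

lemma wedge_change {n : ℕ} (v u : Fin n → K) (A : Matrix (Fin n) (Fin n) K)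
    (h : ∀ i, KaehlerDifferential.D ℂ K (v i) = ∑ j, A i j • KaehlerDifferential.D ℂ K (u j)) :
    wedge v = A.det • wedge u := by
  unfold wedge
  rw [← alt_sum_eq_det]
  congr 1
  funext i
  exact h i

/-- the differentials of a transcendence basis are independent. -/
lemma wedge_ne_zero_of_indep {n : ℕ} (u : Fin n → K) (hu : IsTranscendenceBasis ℂ u) : wedge u ≠ 0 := by
  classical
  intro h0
  have hd : ∀ i : Fin n, ∃ d : Derivation ℂ K K, ∀ j, d (u j) = if j = i then 1 else 0 := by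
    intro i
    obtain ⟨d, -, hd⟩ := exists_derivation (k₀ := ℂ) (k := ℂ) hu 0 (fun j => if j = i then 1 else 0)
    exact ⟨d, hd⟩
  choose d hd using hd
  let lam : Ω[K⁄ℂ] →ₗ[K] (Fin n → K) := LinearMap.pi fun i => (d i).liftKaehlerDifferential
  let f : Ω[K⁄ℂ] [⋀^Fin n]→ₗ[K] K := Matrix.detRowAlternating.compLinearMap lam
  have h1 : exteriorPower.alternatingMapLinearEquiv f (wedge u) = 0 := by rw [h0, map_zero]
  unfold wedge at h1
  rw [exteriorPower.alternatingMapLinearEquiv_apply_ιMulti] at h1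
  have h2 : (fun i => lam (KaehlerDifferential.D ℂ K (u i))) = (1 : Matrix (Fin n) (Fin n) K) := by
    funext i j
    show (d j).liftKaehlerDifferential (KaehlerDifferential.D ℂ K (u i)) = _
    rw [Derivation.liftKaehlerDifferential_comp_D, hd]
    rfl
  have h3 : Matrix.det (fun i => lam (KaehlerDifferential.D ℂ K (u i))) = 0 := h1
  rw [h2, Matrix.det_one] at h3
  exact one_ne_zero h3

end wedge

lemma det4 {K : Type} [Field K]
    (a00 a01 a02 a03 a10 a11 a12 a13 a20 a21 a22 a23 a30 a31 a32 a33 : K) :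
    Matrix.det !![a00, a01, a02, a03; a10, a11, a12, a13; a20, a21, a22, a23;
      a30, a31, a32, a33] =
      a00 * (a11 * (a22 * a33 - a23 * a32) - a12 * (a21 * a33 - a23 * a31) +
        a13 * (a21 * a32 - a22 * a31)) -
      a01 * (a10 * (a22 * a33 - a23 * a32) - a12 * (a20 * a33 - a23 * a30) +
        a13 * (a20 * a32 - a22 * a30)) +
      a02 * (a10 * (a21 * a33 - a23 * a31) - a11 * (a20 * a33 - a23 * a30) +
        a13 * (a20 * a31 - a21 * a30)) -
      a03 * (a10 * (a21 * a32 - a22 * a31) - a11 * (a20 * a32 - a22 * a30) +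
        a12 * (a20 * a31 - a21 * a30)) := by
  simp [Matrix.det_succ_row_zero, Fin.sum_univ_succ, Fin.succAbove]
  ring

section
variable {K : Type} [Field K] [Algebra ℂ K]


lemma wedge4 {t x a b v0 v1 v2 v3 : K}
    (a00 a01 a02 a03 a10 a11 a12 a13 a20 a21 a22 a23 a30 a31 a32 a33 : K)
    (h0 : (KaehlerDifferential.D ℂ K) v0 = a00 • (KaehlerDifferential.D ℂ K) t + a01 • (KaehlerDifferential.D ℂ K) x + a02 • (KaehlerDifferential.D ℂ K) a + a03 • (KaehlerDifferential.D ℂ K) b)
    (h1 : (KaehlerDifferential.D ℂ K) v1 = a10 • (KaehlerDifferential.D ℂ K) t + a11 • (KaehlerDifferential.D ℂ K) x + a12 • (KaehlerDifferential.D ℂ K) a + a13 • (KaehlerDifferential.D ℂ K) b)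
    (h2 : (KaehlerDifferential.D ℂ K) v2 = a20 • (KaehlerDifferential.D ℂ K) t + a21 • (KaehlerDifferential.D ℂ K) x + a22 • (KaehlerDifferential.D ℂ K) a + a23 • (KaehlerDifferential.D ℂ K) b)
    (h3 : (KaehlerDifferential.D ℂ K) v3 = a30 • (KaehlerDifferential.D ℂ K) t + a31 • (KaehlerDifferential.D ℂ K) x + a32 • (KaehlerDifferential.D ℂ K) a + a33 • (KaehlerDifferential.D ℂ K) b) :
    wedge ![v0, v1, v2, v3] = (a00 * (a11 * (a22 * a33 - a23 * a32) -
        a12 * (a21 * a33 - a23 * a31) + a13 * (a21 * a32 - a22 * a31)) -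
      a01 * (a10 * (a22 * a33 - a23 * a32) - a12 * (a20 * a33 - a23 * a30) +
        a13 * (a20 * a32 - a22 * a30)) +
      a02 * (a10 * (a21 * a33 - a23 * a31) - a11 * (a20 * a33 - a23 * a30) +
        a13 * (a20 * a31 - a21 * a30)) -
      a03 * (a10 * (a21 * a32 - a22 * a31) - a11 * (a20 * a32 - a22 * a30) +
        a12 * (a20 * a31 - a21 * a30))) • wedge ![t, x, a, b] := by
  rw [← det4]
  apply wedge_change
  intro i
  fin_cases i <;> rw [Fin.sum_univ_four]
  · exact h0
  · exact h1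
  · exact h2
  · exact h3

lemma D_y {t x y : K} (hrel : x ^ 3 + y ^ 3 + 1 + t ^ 9 = 0) (hy : y ≠ 0) [CharZero K] :
    (KaehlerDifferential.D ℂ K) y = (-(3 * t ^ 8 / y ^ 2)) • (KaehlerDifferential.D ℂ K) t + (-(x ^ 2 / y ^ 2)) • (KaehlerDifferential.D ℂ K) x := by
  have h1 := congrArg (KaehlerDifferential.D ℂ K) hrel
  simp only [map_add, Derivation.leibniz_pow, Derivation.map_one_eq_zero, map_zero, add_zero,
    ← Nat.cast_smul_eq_nsmul K, smul_smul] at h1
  push_cast at h1
  have h3 : (3 : K) ≠ 0 := by norm_num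
  have h2 : (3 * y ^ 2) • (KaehlerDifferential.D ℂ K) y = (-(9 * t ^ 8)) • (KaehlerDifferential.D ℂ K) t + (-(3 * x ^ 2)) • (KaehlerDifferential.D ℂ K) x := by
    linear_combination (norm := module) h1
  have h4 : (KaehlerDifferential.D ℂ K) y = (3 * y ^ 2)⁻¹ • ((3 * y ^ 2) • (KaehlerDifferential.D ℂ K) y) := by
    rw [smul_smul, inv_mul_cancel₀ (mul_ne_zero h3 (pow_ne_zero 2 hy)), one_smul]
  rw [h4, h2, smul_add, smul_smul, smul_smul]
  congr 2
  · field_simp
    norm_num
  · field_simp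

lemma D_inv (z : K) : (KaehlerDifferential.D ℂ K) z⁻¹ = (-(z⁻¹ ^ 2)) • (KaehlerDifferential.D ℂ K) z := Derivation.leibniz_inv _ _

lemma D_div (u z : K) (hz : z ≠ 0) : (KaehlerDifferential.D ℂ K) (u / z) = (1 / z) • (KaehlerDifferential.D ℂ K) u + (-(u / z ^ 2)) • (KaehlerDifferential.D ℂ K) z := by
  rw [Derivation.leibniz_div, smul_sub, smul_smul, smul_smul, neg_smul, ← sub_eq_add_neg]
  congr 2
  · field_simp
  · field_simp

lemma D_cube (z : K) : (KaehlerDifferential.D ℂ K) (z ^ 3) = (3 * z ^ 2) • (KaehlerDifferential.D ℂ K) z := by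
  rw [Derivation.leibniz_pow, ← Nat.cast_smul_eq_nsmul K, smul_smul]
  norm_num

end

theorem stmt_G1 (hSym : Stmt_Sym) : Stmt_G1 := by
  intro K _ _ t x y a b h
  have hc : CharZero K := charZero_of_injective_algebraMap (algebraMap ℂ K).injective
  obtain ⟨-, -, -, -, h1, h2⟩ := hSym K t x y a b h
  have ht : t ≠ 0 := h1.ne_zero 0
  have hx : x ≠ 0 := h1.ne_zero 1
  have hy : y ≠ 0 := h2.ne_zero 1
  have ha : a ≠ 0 := h1.ne_zero 2
  have hb : b ≠ 0 := h1.ne_zero 3
  have hbasis : IsTranscendenceBasis ℂ ![t, x, a, b] :=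
    h1.isTranscendenceBasis_of_trdeg_le_of_finite (by rw [h.trdeg]; simp)
  have hw := wedge_ne_zero_of_indep _ hbasis
  have hDy := D_y h.rel hy
  have Wty : wedge ![t, y, a, b] = (-(x ^ 2 / y ^ 2)) • wedge ![t, x, a, b] := by
    rw [wedge4 (t := t) (x := x) (a := a) (b := b) 1 0 0 0 (-(3 * t ^ 8 / y ^ 2))
      (-(x ^ 2 / y ^ 2)) 0 0 0 0 1 0 0 0 0 1 (by module) (by rw [hDy]; module) (by module)
      (by module)]
    congr 1
    ring
  refine ⟨?_, ?_, ?_, ?_, ?_, ?_, ?_, ?_, ?_⟩
  · exact smul_ne_zero (inv_ne_zero (pow_ne_zero 2 hy)) hw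
  · unfold omegaY
    rw [Wty, smul_smul]
    refine Eq.trans ?_ (neg_smul _ _)
    congr 1
    field_simp
  · unfold omegaY
    rw [wedge4 (t := t) (x := x) (a := a) (b := b) (v2 := b) (v3 := a) 1 0 0 0 0 1 0 0 0 0 0 1
      0 0 1 0 (by module) (by module) (by module) (by module)]
    rw [smul_smul]
    refine Eq.trans ?_ (neg_smul _ _)
    congr 1
    ring
  · unfold omegaY
    rw [wedge4 (t := t) (x := x) (a := a) (b := b) 1 0 0 0 0 1 0 0 0 0 (-(a⁻¹ ^ 2)) 0
      0 0 (-(b / a ^ 2)) (1 / a) (by module) (by module) (by rw [D_inv]; module)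
      (by rw [D_div b a ha]; module)]
    rw [smul_smul, smul_smul]
    congr 1
    field_simp
    ring
  · unfold omegaY
    rw [wedge4 (t := t) (x := x) (a := a) (b := b) (-(t⁻¹ ^ 2)) 0 0 0 (-(3 * x / t ^ 4))
      (1 / t ^ 3) 0 0 (-(a / t ^ 2)) 0 (1 / t) 0 (-(b / t ^ 2)) 0 0 (1 / t)
      (by rw [D_inv]; module)
      (by
        rw [D_div x (t ^ 3) (pow_ne_zero 3 ht), D_cube, smul_smul]
        have : -(x / (t ^ 3) ^ 2) * (3 * t ^ 2) = -(3 * x / t ^ 4) := by field_simp
        rw [this]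
        module)
      (by rw [D_div a t ht]; module)
      (by rw [D_div b t ht]; module)]
    rw [smul_smul, smul_smul]
    congr 1
    field_simp
    ring
  · unfold omegaY
    rw [wedge4 (t := t) (x := x) (a := a) (b := b) (1 / a) 0 (-(t / a ^ 2)) 0 0
      (-(a ^ 3 / x ^ 2)) (3 * a ^ 2 / x) 0 0 0 (-(a⁻¹ ^ 2)) 0 0 0 (-(b / a ^ 2)) (1 / a)
      (by rw [D_div t a ha]; module)
      (by
        rw [D_div (a ^ 3) x hx, D_cube, smul_smul]
        have : 1 / x * (3 * a ^ 2) = 3 * a ^ 2 / x := by field_simp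
        rw [this]
        module)
      (by rw [D_inv]; module)
      (by rw [D_div b a ha]; module)]
    rw [smul_smul]
    congr 1
    field_simp
    ring
  · unfold omegaY
    rw [wedge4 (t := t) (x := x) (a := a) (b := b) 1 0 0 0 0 (-(x⁻¹ ^ 2)) 0 0 0 0 1 0 0 0 0 1
      (by module) (by rw [D_inv]; module) (by module) (by module)]
    rw [smul_smul]
    congr 1
    field_simp
    ring
  · unfold omegaY
    rw [Wty, smul_smul]
    congr 1
    field_simp
  · unfold omegaY
    rw [wedge4 (t := t) (x := x) (a := a) (b := b) (v0 := x) 0 1 0 0 (-(3 * t ^ 8 / y ^ 2))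
      (-(x ^ 2 / y ^ 2)) 0 0 0 0 1 0 0 0 0 1 (by module) (by rw [hDy]; module) (by module)
      (by module)]
    rw [smul_smul]
    congr 1
    field_simp
    ring

end Pool.Agent.MPad0563
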