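import Pool.Agent.Work.MP_ad0563_ag.BlockA

/-!
# MP_ad0563_ag : blocks A5 (properness), A7, A4
-/

open MvPolynomial

namespace Pool.Agent.MPad0563

/-- Nullstellensatz: a proper ideal of a `ℂ`-algebra of finite type is killed by a character. -/
lemma exists_character_of_ne_top (C : Type) [CommRing C] [Algebra ℂ C] [Algebra.FiniteType ℂ C]
    (I : Ideal C) (hI : I ≠ ⊤) : ∃ χ : C →ₐ[ℂ] ℂ, ∀ x ∈ I, χ x = 0 := by
  obtain ⟨M, hM, hIM⟩ := Ideal.exists_le_maximal I hI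
  let := Ideal.Quotient.field M
  have : Algebra.FiniteType ℂ (C ⧸ M) :=
    Algebra.FiniteType.of_surjective (Ideal.Quotient.mkₐ ℂ M) (Ideal.Quotient.mkₐ_surjective ℂ M)
  have := finite_of_finite_type_of_isJacobsonRing ℂ (C ⧸ M)
  have hb : Function.Bijective (algebraMap ℂ (C ⧸ M)) :=
    IsAlgClosed.algebraMap_bijective_of_isIntegral
  let e : ℂ ≃ₐ[ℂ] (C ⧸ M) := AlgEquiv.ofBijective (Algebra.ofId ℂ (C ⧸ M)) hb
  refine ⟨e.symm.toAlgHom.comp (Ideal.Quotient.mkₐ ℂ M), ?_⟩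
  intro x hx
  have h0 : Ideal.Quotient.mkₐ ℂ M x = 0 := Ideal.Quotient.eq_zero_iff_mem.2 (hIM hx)
  show e.symm (Ideal.Quotient.mkₐ ℂ M x) = 0
  rw [h0, map_zero]

section
variable {ι κ L : Type} [Field L] [Algebra ℂ L]

lemma finiteType_adjoin {S : Set L} (hS : S.Finite) :
    Algebra.FiniteType ℂ (Algebra.adjoin ℂ S) := by
  rw [← Subalgebra.fg_iff_finiteType, Subalgebra.fg_def]
  exact ⟨S, hS, rfl⟩

/-- a valuation ring dominating the local ring of a `ℂ`-point. -/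
lemma exists_valuation (A : Subalgebra ℂ L) (χ : A →ₐ[ℂ] ℂ) :
    ∃ V : ValuationSubring L, (∀ z ∈ A, z ∈ V) ∧ ∀ z : A, χ z = 0 → (z : L) ∈ V.nonunits := by
  obtain ⟨V, h1, h2⟩ := Ideal.image_subset_nonunits_valuationSubring (A := A.toSubring)
    (RingHom.ker (χ : A →+* ℂ)) (RingHom.ker_ne_top _)
  exact ⟨V, fun z hz => h1 hz, fun z hz => h2 ⟨z, hz, rfl⟩⟩

/-- the centre of a valuation ring on an algebra of finite type, specialised to a closed
point. -/
lemma exists_centre (C : Subalgebra ℂ L) (hC : Algebra.FiniteType ℂ C) (V : ValuationSubring L)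
    (hV : ∀ z ∈ C, z ∈ V) :
    ∃ χ : C →ₐ[ℂ] ℂ, ∀ z : C, (z : L) ∈ V.nonunits → χ z = 0 := by
  let φ : C →+* V := Subring.inclusion (S := C.toSubring) (T := V.toSubring) hV
  obtain ⟨χ, hχ⟩ := exists_character_of_ne_top C ((IsLocalRing.maximalIdeal V).comap φ)
    (Ideal.IsPrime.ne_top inferInstance)
  refine ⟨χ, fun z hz => hχ z ?_⟩
  rw [Ideal.mem_comap, ← ValuationSubring.coe_mem_nonunits_iff]
  exact hz

/-- a `ℂ`-point of `A` lifts to `C ⊇ A` if a common valuation ring dominates. -/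
lemma exists_centre_over (A C : Subalgebra ℂ L) (hC : Algebra.FiniteType ℂ C)
    (V : ValuationSubring L) (hV : ∀ z ∈ C, z ∈ V) (χ : A →ₐ[ℂ] ℂ)
    (hχ : ∀ z : A, χ z = 0 → (z : L) ∈ V.nonunits) :
    ∃ χ' : C →ₐ[ℂ] ℂ, (∀ z : C, (z : L) ∈ V.nonunits → χ' z = 0) ∧
      ∀ (z : L) (hz : z ∈ A) (hz' : z ∈ C), χ' ⟨z, hz'⟩ = χ ⟨z, hz⟩ := by
  obtain ⟨χ', h'⟩ := exists_centre C hC V hV
  refine ⟨χ', h', ?_⟩
  intro z hz hz'
  have h1 : χ (⟨z, hz⟩ - algebraMap ℂ A (χ ⟨z, hz⟩)) = 0 := by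
    rw [map_sub, AlgHom.commutes]
    simp
  have h3 := h' (⟨z, hz'⟩ - algebraMap ℂ C (χ ⟨z, hz⟩)) (by
    have := hχ _ h1
    simpa using this)
  rw [map_sub, AlgHom.commutes] at h3
  simpa [sub_eq_zero] using h3

omit [Algebra ℂ L] in
/-- a coordinate of maximal absolute value. -/
lemma exists_max_coord [Fintype ι] (f : ι → L) (hf : f ≠ 0) (V : ValuationSubring L) :
    ∃ j, f j ≠ 0 ∧ ∀ i, f i / f j ∈ V := by
  obtain ⟨i0, hi0⟩ : ∃ i, f i ≠ 0 := Function.ne_iff.1 hf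
  have : Nonempty ι := ⟨i0⟩
  obtain ⟨j, hj⟩ := Finite.exists_max (fun i => V.valuation (f i))
  have hj0 : f j ≠ 0 := by
    intro h0
    have := hj i0
    rw [h0, map_zero, le_zero_iff, map_eq_zero] at this
    exact hi0 this
  refine ⟨j, hj0, fun i => ?_⟩
  rw [← ValuationSubring.valuation_le_one_iff, map_div₀]
  exact div_le_one_of_le₀ (hj i) zero_le

end

/-- the key lemma: a closed point of the variety of `g` together with a dominating valuation
ring lifts to a closed pair. -/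
lemma exists_lift {ι κ L : Type} [Fintype ι] [Fintype κ] [Field L] [Algebra ℂ L] (f : ι → L)
    (g : κ → L) (hf : f ≠ 0) (q : PSpace κ) (k : κ) (hg : g k ≠ 0)
    (χ : chart g k →ₐ[ℂ] ℂ)
    (hχ : ∀ (l : κ) (h : g l / g k ∈ chart g k), χ ⟨g l / g k, h⟩ = q.rep l / q.rep k)
    (V : ValuationSubring L) (hV : ∀ z ∈ chart g k, z ∈ V)
    (hχV : ∀ z : chart g k, χ z = 0 → (z : L) ∈ V.nonunits) :
    ∃ (j : ι) (v : ι → ℂ) (hv : v ≠ 0), f j ≠ 0 ∧ (∀ i, f i / f j ∈ V) ∧ v j = 1 ∧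
      (∀ P : MvPolynomial ι ℂ, aeval (fun i => f i / f j) P ∈ V.nonunits → eval v P = 0) ∧
      (Projectivization.mk ℂ v hv, q) ∈ closedPairs f g := by
  obtain ⟨j, hj0, hj⟩ := exists_max_coord f hf V
  have hC : Algebra.FiniteType ℂ (chart2 f g j k) :=
    finiteType_adjoin ((Set.finite_range _).union (Set.finite_range _))
  have hconst : ∀ c : ℂ, algebraMap ℂ L c ∈ V := fun c => hV _ (Subalgebra.algebraMap_mem _ c)
  have hCV : ∀ z ∈ chart2 f g j k, z ∈ V := by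
    intro z hz
    induction hz using Algebra.adjoin_induction with
    | mem x hx =>
      rcases hx with ⟨i, rfl⟩ | ⟨l, rfl⟩
      · exact hj i
      · exact hV _ (Algebra.subset_adjoin ⟨l, rfl⟩)
    | algebraMap r => exact hconst r
    | add x y _ _ hx hy => exact add_mem hx hy
    | mul x y _ _ hx hy => exact mul_mem hx hy
  obtain ⟨χ', h1, h2⟩ := exists_centre_over _ _ hC V hCV χ hχV
  have hmem : ∀ i, f i / f j ∈ chart2 f g j k :=
    fun i => Algebra.subset_adjoin (Set.mem_union_left _ (Set.mem_range_self i))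
  have hmem' : ∀ l, g l / g k ∈ chart2 f g j k :=
    fun l => Algebra.subset_adjoin (Set.mem_union_right _ (Set.mem_range_self l))
  have hmem'' : ∀ l, g l / g k ∈ chart g k :=
    fun l => Algebra.subset_adjoin (Set.mem_range_self l)
  obtain ⟨e1, e2, e3⟩ := stmt_A2' ι κ L f g (fun i => χ' ⟨f i / f j, hmem i⟩)
    (fun l => χ' ⟨g l / g k, hmem' l⟩) j k hj0 hg χ' (fun _ _ => rfl) (fun _ _ => rfl)
  have hv : (fun i => χ' ⟨f i / f j, hmem i⟩) ≠ 0 := by
    intro h0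
    exact zero_ne_one ((congrFun h0 j).symm.trans e1)
  have hw : (fun l => χ' ⟨g l / g k, hmem' l⟩) ≠ 0 := by
    intro h0
    exact zero_ne_one ((congrFun h0 k).symm.trans e2)
  refine ⟨j, _, hv, hj0, hj, e1, ?_, ?_⟩
  · intro P hP
    have h3 := character_apply' (A := chart2 f g j k) hmem χ' P (aeval_mem_of_mem hmem P)
    rw [← h3]
    exact h1 _ hP
  · have h4 := e3 hv hw
    have h5 : Projectivization.mk ℂ (fun l => χ' ⟨g l / g k, hmem' l⟩) hw = q := by
      conv_rhs => rw [← q.mk_rep]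
      rw [Projectivization.mk_eq_mk_iff']
      refine ⟨(q.rep k)⁻¹, ?_⟩
      funext l
      rw [h2 _ (hmem'' l) (hmem' l), hχ l (hmem'' l)]
      simp [div_eq_inv_mul]
    rw [h5] at h4
    exact h4

theorem stmt_A5 : Stmt_A5 := by
  intro ι κ L _ _ _ _ f g hf hg q hq
  obtain ⟨k, hk⟩ : ∃ k, q.rep k ≠ 0 := Function.ne_iff.1 q.rep_nonzero
  have hq' : Projectivization.mk ℂ q.rep q.rep_nonzero ∈ closedPts g := by rwa [q.mk_rep]
  obtain ⟨hgk, χ, hχ⟩ := stmt_A1 κ L g q.rep q.rep_nonzero k hk hq'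
  obtain ⟨V, h1, h2⟩ := exists_valuation (chart g k) χ
  obtain ⟨j, v, hv, -, -, -, -, h⟩ := exists_lift f g hf q k hgk χ hχ V h1 h2
  exact ⟨_, h⟩


/-! ### A4 -/

lemma eval_rep_eq_zero_iff {ι : Type} {F : MvPolynomial ι ℂ} {d : ℕ} (hF : IsForm F d)
    (v : ι → ℂ) (hv : v ≠ 0) : eval (Projectivization.mk ℂ v hv).rep F = 0 ↔ eval v F = 0 := by
  obtain ⟨a, ha⟩ := Projectivization.exists_smul_eq_mk_rep ℂ v hv
  have hrep : (Projectivization.mk ℂ v hv).rep = fun i => (a : ℂ) * v i := by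
    rw [← ha]; rfl
  rw [hrep, eval_form_smul hF]
  constructor
  · intro h
    exact (mul_eq_zero.1 h).resolve_left (pow_ne_zero _ a.ne_zero)
  · intro h
    rw [h, mul_zero]

theorem stmt_A4 : Stmt_A4 := by
  intro ι L _ _ _ f hf d F hF hall
  by_contra h0
  obtain ⟨i, hi⟩ : ∃ i, f i ≠ 0 := Function.ne_iff.1 hf
  set w : L := aeval (fun j => f j / f i) F with hw
  have hw1 : w = (f i)⁻¹ ^ d * aeval f F := by
    have := aeval_form_smul hF (f i)⁻¹ f
    have e1 : (fun j => (f i)⁻¹ * f j) = fun j => f j / f i := by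
      funext j; rw [div_eq_inv_mul]
    rw [e1] at this
    exact this
  have hw0 : w ≠ 0 := by
    rw [hw1]
    exact mul_ne_zero (pow_ne_zero _ (inv_ne_zero hi)) h0
  set C := Algebra.adjoin ℂ ((Set.range fun j => f j / f i) ∪ {w⁻¹}) with hC
  have hCf : Algebra.FiniteType ℂ C :=
    finiteType_adjoin ((Set.finite_range _).union (Set.finite_singleton _))
  obtain ⟨χ, -⟩ := exists_character_of_ne_top C ⊥ bot_ne_top
  have hAC : chart f i ≤ C := Algebra.adjoin_mono Set.subset_union_left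
  set χ' : chart f i →ₐ[ℂ] ℂ := χ.comp (Subalgebra.inclusion hAC) with hχ'
  have hmem : ∀ j, f j / f i ∈ chart f i := fun j => Algebra.subset_adjoin (Set.mem_range_self j)
  obtain ⟨h1, h2⟩ := stmt_A2 ι L f (fun j => χ' ⟨f j / f i, hmem j⟩) i hi χ' (fun _ _ => rfl)
  have hv : (fun j => χ' ⟨f j / f i, hmem j⟩) ≠ 0 := by
    intro h0
    exact zero_ne_one ((congrFun h0 i).symm.trans h1)
  have h3 := (eval_rep_eq_zero_iff hF _ hv).1 (hall _ (h2 hv))
  have h4 := character_apply' (A := chart f i) hmem χ' F (aeval_mem_of_mem hmem F)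
  rw [h3] at h4
  have hwC : w ∈ C := hAC (aeval_mem_of_mem hmem F)
  have hwC' : w⁻¹ ∈ C := Algebra.subset_adjoin (by simp)
  have h5 : χ ⟨w, hwC⟩ = 0 := h4
  have h6 : (⟨w, hwC⟩ : C) * ⟨w⁻¹, hwC'⟩ = 1 := Subtype.ext (mul_inv_cancel₀ hw0)
  have h7 := congrArg χ h6
  rw [map_mul, h5, zero_mul, map_one] at h7
  exact zero_ne_one h7

/-! ### A7 -/

lemma aeval_rename_inl {ι κ M : Type} [Field M] [Algebra ℂ M] (F : MvPolynomial ι ℂ) (a : ι → M)
    (b : κ → M) : aeval (Sum.elim a b) (rename Sum.inl F) = aeval a F := by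
  rw [aeval_rename]
  rfl

lemma isBiForm_rename_inl {ι κ : Type} {F : MvPolynomial ι ℂ} {d : ℕ} (hF : IsForm F d) :
    IsBiForm (rename (Sum.inl : ι → ι ⊕ κ) F) d 0 := by
  have e : rename (Sum.inl : ι → ι ⊕ κ) F =
      aeval (fun i => (X (Sum.inl i) : MvPolynomial (ι ⊕ κ) ℂ)) F := by
    have : (rename (Sum.inl : ι → ι ⊕ κ) : MvPolynomial ι ℂ →ₐ[ℂ] _) =
        aeval (fun i => (X (Sum.inl i) : MvPolynomial (ι ⊕ κ) ℂ)) := by
      ext i
      simp
    rw [this]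
  rw [e]
  constructor
  · have := whom_aeval hF (fun i => (X (Sum.inl i) : MvPolynomial (ι ⊕ κ) ℂ))
      (Sum.elim (fun _ => 1) (fun _ => 0) : ι ⊕ κ → ℕ) 1
      (fun i => isWeightedHomogeneous_X ℂ _ (Sum.inl i))
    rwa [mul_one] at this
  · have := whom_aeval hF (fun i => (X (Sum.inl i) : MvPolynomial (ι ⊕ κ) ℂ))
      (Sum.elim (fun _ => 0) (fun _ => 1) : ι ⊕ κ → ℕ) 0
      (fun i => isWeightedHomogeneous_X ℂ _ (Sum.inl i))
    rwa [mul_zero] at this

lemma mem_closedPts_of_pair {ι κ L : Type} [Field L] [Algebra ℂ L] {f : ι → L} {g : κ → L}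
    {p : PSpace ι} {q : PSpace κ} (h : (p, q) ∈ closedPairs f g) : p ∈ closedPts f := by
  intro d F hF h0
  have := h d 0 _ (isBiForm_rename_inl hF) (by rw [aeval_rename_inl, h0])
  rw [← aeval_eq_eval, aeval_rename_inl] at this
  simpa [aeval_eq_eval] using this

theorem stmt_A7 : Stmt_A7 := by
  intro μ ι L _ _ _ _ e d Φ he hΦ hne hne'
  ext q
  constructor
  · intro hq
    obtain ⟨p, hp⟩ := stmt_A5 μ ι L e (fun j => aeval e (Φ j)) he hne' q hq
    have hp' := mem_closedPts_of_pair hp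
    refine ⟨p, hp', hne p hp', ?_⟩
    conv_lhs => rw [← q.mk_rep]
    have hrel : ∀ i j, q.rep i * eval p.rep (Φ j) = q.rep j * eval p.rep (Φ i) := by
      intro i j
      have hb : ∀ i j, IsBiForm (X (Sum.inr i) * rename (Sum.inl : μ → μ ⊕ ι) (Φ j)) d 1 := by
        intro i j
        constructor
        · have := (isWeightedHomogeneous_X ℂ (Sum.elim (fun _ => 1) (fun _ => 0) : μ ⊕ ι → ℕ)
            (Sum.inr i)).mul (isBiForm_rename_inl (κ := ι) (hΦ j)).1
          simpa using this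
        · have := (isWeightedHomogeneous_X ℂ (Sum.elim (fun _ => 0) (fun _ => 1) : μ ⊕ ι → ℕ)
            (Sum.inr i)).mul (isBiForm_rename_inl (κ := ι) (hΦ j)).2
          simpa using this
      have h1 := hp d 1 (X (Sum.inr i) * rename (Sum.inl : μ → μ ⊕ ι) (Φ j) -
        X (Sum.inr j) * rename (Sum.inl : μ → μ ⊕ ι) (Φ i))
        ⟨(hb i j).1.sub (hb j i).1, (hb i j).2.sub (hb j i).2⟩ (by
          rw [map_sub, map_mul, map_mul, aeval_rename_inl, aeval_rename_inl]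
          simp
          ring)
      rw [map_sub, map_mul, map_mul, ← aeval_eq_eval, aeval_rename_inl, aeval_rename_inl] at h1
      simpa [aeval_eq_eval, sub_eq_zero] using h1
    obtain ⟨j, hj⟩ : ∃ j, eval p.rep (Φ j) ≠ 0 := Function.ne_iff.1 (hne p hp')
    rw [Projectivization.mk_eq_mk_iff']
    refine ⟨q.rep j / eval p.rep (Φ j), ?_⟩
    funext i
    simp only [Pi.smul_apply, smul_eq_mul]
    rw [div_mul_eq_mul_div, div_eq_iff hj]
    exact hrel j i
  · rintro ⟨p, hp, h, rfl⟩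
    rw [stmt_A0]
    intro m F hF h0
    have h1 : IsForm (aeval Φ F) (m * d) := whom_aeval hF Φ 1 d hΦ
    have key : ∀ (M : Type) [Field M] [Algebra ℂ M] (a : μ → M),
        aeval a (aeval Φ F) = aeval (fun j => aeval a (Φ j)) F := by
      intro M _ _ a
      have h2 : (aeval a).comp (aeval Φ : MvPolynomial ι ℂ →ₐ[ℂ] MvPolynomial μ ℂ) =
          aeval (fun j => aeval a (Φ j)) := by
        ext j
        simp
      exact congrArg (fun φ => φ F) h2
    have h2 := hp _ _ h1 (by rw [key]; exact h0)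
    have h3 := key ℂ p.rep
    simp only [aeval_eq_eval] at h3
    rw [← h2]
    exact h3.symm

end Pool.Agent.MPad0563
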