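import Pool.Agent.Work.MP_ad0563_ag_helper72.Proper

/-!
# MP_ad0563_ag : block A6
-/

open MvPolynomial

namespace Pool.Agent.MPad0563

section rel
variable {L : Type} [Field L] [Algebra ℂ L]

/-- in transcendence degree one every `u` satisfies a relation over `ℂ[w]` which is nonzero at
`w = 0`. -/
lemma exists_relation (h1 : Algebra.trdeg ℂ L = 1) (w u : L) (hw : Transcendental ℂ w) :
    ∃ P : Polynomial (Polynomial ℂ), P.map (Polynomial.evalRingHom 0) ≠ 0 ∧
      Polynomial.eval₂ (Polynomial.aeval w : Polynomial ℂ →ₐ[ℂ] L).toRingHom u P = 0 := by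
  have hw0 : w ≠ 0 := by
    rintro rfl
    exact hw isAlgebraic_zero
  set x : Unit → L := fun _ => w with hx
  have hind : AlgebraicIndependent ℂ x := (algebraicIndependent_singleton_iff ()).2 hw
  have hb : IsTranscendenceBasis ℂ x :=
    hind.isTranscendenceBasis_of_trdeg_le_of_finite (by rw [h1]; simp)
  have halg := hb.isAlgebraic
  obtain ⟨p, hp0, hp⟩ := halg.isAlgebraic u
  have hwm : w ∈ Algebra.adjoin ℂ (Set.range x) := Algebra.subset_adjoin ⟨(), rfl⟩
  let π : Polynomial ℂ →+* Algebra.adjoin ℂ (Set.range x) :=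
    (Polynomial.aeval (⟨w, hwm⟩ : Algebra.adjoin ℂ (Set.range x))).toRingHom
  have hπc : ∀ Q, ((π Q : Algebra.adjoin ℂ (Set.range x)) : L) = Polynomial.aeval w Q := by
    intro Q
    exact (Polynomial.aeval_subalgebra_coe Q _ _)
  have hπ : Function.Surjective π := by
    rintro ⟨z, hz⟩
    have hz' := hz
    rw [show Set.range x = {w} from Set.range_const,
      Algebra.adjoin_singleton_eq_range_aeval] at hz'
    obtain ⟨Q, hQ⟩ := hz'
    refine ⟨Q, Subtype.ext ?_⟩
    rw [hπc]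
    exact hQ
  obtain ⟨P0, hP0⟩ := Polynomial.map_surjective π hπ p
  have hP0ne : P0 ≠ 0 := by
    rintro rfl
    rw [Polynomial.map_zero] at hP0
    exact hp0 hP0.symm
  have hev : Polynomial.eval₂ (Polynomial.aeval w : Polynomial ℂ →ₐ[ℂ] L).toRingHom u P0 = 0 := by
    rw [← hP0, Polynomial.aeval_def, Polynomial.eval₂_map] at hp
    rw [← hp]
    congr 1
    apply Polynomial.ringHom_ext
    · intro a
      show Polynomial.aeval w (Polynomial.C a) =
        ((π (Polynomial.C a) : Algebra.adjoin ℂ (Set.range x)) : L)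
      rw [hπc]
    · show Polynomial.aeval w Polynomial.X =
        ((π Polynomial.X : Algebra.adjoin ℂ (Set.range x)) : L)
      rw [hπc]
  have hnu : ¬ IsUnit (Polynomial.C (Polynomial.X : Polynomial ℂ)) := by
    rw [Polynomial.isUnit_C]
    exact Polynomial.not_isUnit_X
  obtain ⟨Q, hQ1, hQ2⟩ :=
    (FiniteMultiplicity.of_not_isUnit hnu hP0ne).exists_eq_pow_mul_and_not_dvd
  refine ⟨Q, ?_, ?_⟩
  · intro h0
    apply hQ2
    rw [Polynomial.C_dvd_iff_dvd_coeff]
    intro n
    rw [Polynomial.X_dvd_iff]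
    have := congrArg (fun q => Polynomial.coeff q n) h0
    simpa [Polynomial.coeff_zero_eq_eval_zero] using this
  · rw [hQ1, Polynomial.eval₂_mul, Polynomial.eval₂_pow, Polynomial.eval₂_C] at hev
    have : (Polynomial.aeval w : Polynomial ℂ →ₐ[ℂ] L).toRingHom Polynomial.X = w := by simp
    rw [this] at hev
    exact (mul_eq_zero.1 hev).resolve_left (pow_ne_zero _ hw0)

lemma finite_values (h1 : Algebra.trdeg ℂ L = 1) (w u : L) (hw : w ≠ 0) :
    ∃ s : Set ℂ, s.Finite ∧ ∀ (C : Subalgebra ℂ L) (χ : C →ₐ[ℂ] ℂ) (hw : w ∈ C) (hu : u ∈ C),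
      χ ⟨w, hw⟩ = 0 → χ ⟨u, hu⟩ ∈ s := by
  by_cases hwt : Transcendental ℂ w
  · obtain ⟨P, hP, hP0⟩ := exists_relation h1 w u hwt
    refine ⟨{z | (P.map (Polynomial.evalRingHom 0)).IsRoot z}, Polynomial.finite_setOfPred_isRoot hP, ?_⟩
    intro C χ hw hu h0
    have e1 : Polynomial.eval₂ (Polynomial.aeval (⟨w, hw⟩ : C)).toRingHom (⟨u, hu⟩ : C) P = 0 := by
      apply Subtype.val_injective
      rw [← C.coe_val] 
      have : C.val (Polynomial.eval₂ (Polynomial.aeval (⟨w, hw⟩ : C)).toRingHom (⟨u, hu⟩ : C) P) =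
          Polynomial.eval₂ (Polynomial.aeval w : Polynomial ℂ →ₐ[ℂ] L).toRingHom u P := by
        rw [← AlgHom.coe_toRingHom C.val, Polynomial.hom_eval₂]
        congr 1
        ext Q
        · simp
        · simp
      rw [this, hP0, map_zero]
    have e2 := congrArg (χ : C →+* ℂ) e1
    rw [Polynomial.hom_eval₂, map_zero] at e2
    have e3 : (χ : C →+* ℂ).comp (Polynomial.aeval (⟨w, hw⟩ : C)).toRingHom =
        Polynomial.evalRingHom 0 := by
      apply Polynomial.ringHom_ext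
      · intro a
        simp
      · simp [h0]
    rw [e3] at e2
    show Polynomial.IsRoot _ _
    rw [Polynomial.IsRoot.def, Polynomial.eval_map]
    exact e2
  · refine ⟨∅, Set.finite_empty, ?_⟩
    intro C χ hw' hu h0
    exfalso
    have : IsAlgebraic ℂ w := not_not.1 hwt
    obtain ⟨c, rfl⟩ : ∃ c, algebraMap ℂ L c = w := by
      have h2 := IsAlgClosed.degree_eq_one_of_irreducible ℂ
        (minpoly.irreducible this.isIntegral)
      exact minpoly.degree_eq_one_iff.1 h2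
    have e : (⟨algebraMap ℂ L c, hw'⟩ : C) = algebraMap ℂ C c := rfl
    rw [e, AlgHom.commutes] at h0
    apply hw
    simp only [Algebra.algebraMap_self, RingHom.id_apply] at h0
    rw [h0, map_zero]

end rel

section
variable {ι L : Type} [Fintype ι] [Field L] [Algebra ℂ L]

omit [Fintype ι] in
lemma eq_of_ratios {p q : PSpace ι} {i : ι} (hp : p.rep i ≠ 0) (hq : q.rep i ≠ 0)
    (h : ∀ j, p.rep j / p.rep i = q.rep j / q.rep i) : p = q := by
  rw [← p.mk_rep, ← q.mk_rep, Projectivization.mk_eq_mk_iff']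
  refine ⟨p.rep i / q.rep i, ?_⟩
  funext j
  have := h j
  simp only [Pi.smul_apply, smul_eq_mul]
  rw [div_eq_div_iff hp hq] at this
  rw [div_mul_eq_mul_div, div_eq_iff hq, this, mul_comm]

lemma finite_zero_chart (h1 : Algebra.trdeg ℂ L = 1) (f : ι → L) (i : ι) (hi : f i ≠ 0)
    {d : ℕ} {F : MvPolynomial ι ℂ} (hF : IsForm F d) (hF0 : aeval f F ≠ 0) :
    {p | p ∈ closedPts f ∧ p.rep i ≠ 0 ∧ eval p.rep F = 0}.Finite := by
  set w : L := aeval (fun j => f j / f i) F with hw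
  have hmem : ∀ j, f j / f i ∈ chart f i := fun j => Algebra.subset_adjoin (Set.mem_range_self j)
  have hwm : w ∈ chart f i := aeval_mem_of_mem hmem F
  have hw1 : w = (f i)⁻¹ ^ d * aeval f F := by
    have := aeval_form_smul hF (f i)⁻¹ f
    have e1 : (fun j => (f i)⁻¹ * f j) = fun j => f j / f i := by
      funext j; rw [div_eq_inv_mul]
    rw [e1] at this
    exact this
  have hw0 : w ≠ 0 := by
    rw [hw1]
    exact mul_ne_zero (pow_ne_zero _ (inv_ne_zero hi)) hF0
  choose s hs hs' using fun j => finite_values h1 w (f j / f i) hw0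
  have hpi : (Set.pi Set.univ s).Finite := Set.Finite.pi hs
  refine Set.Finite.of_injOn (f := fun p : PSpace ι => fun j => p.rep j / p.rep i) ?_ ?_ hpi
  · rintro p ⟨hp, hpi, hpF⟩ j -
    have hp' : Projectivization.mk ℂ p.rep p.rep_nonzero ∈ closedPts f := by rwa [p.mk_rep]
    obtain ⟨-, χ, hχ⟩ := stmt_A1 ι L f p.rep p.rep_nonzero i hpi hp'
    have h2 := character_apply' (A := chart f i) hmem χ F (aeval_mem_of_mem hmem F)
    have h3 : (fun j => χ ⟨f j / f i, hmem j⟩) = fun j => (p.rep i)⁻¹ * p.rep j := by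
      funext j
      rw [hχ, div_eq_inv_mul]
    rw [h3, eval_form_smul hF, hpF, mul_zero] at h2
    have h4 := hs' j (chart f i) χ hwm (hmem j) h2
    rwa [hχ] at h4
  · rintro p ⟨hp, hpi, hpF⟩ q ⟨hq, hqi, hqF⟩ h
    exact eq_of_ratios hpi hqi (fun j => congrFun h j)

lemma finite_zero (h1 : Algebra.trdeg ℂ L = 1) (f : ι → L)
    {d : ℕ} {F : MvPolynomial ι ℂ} (hF : IsForm F d) (hF0 : aeval f F ≠ 0) :
    {p | p ∈ closedPts f ∧ eval p.rep F = 0}.Finite := by
  have : {p | p ∈ closedPts f ∧ eval p.rep F = 0} ⊆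
      ⋃ i, {p | f i ≠ 0 ∧ p ∈ closedPts f ∧ p.rep i ≠ 0 ∧ eval p.rep F = 0} := by
    rintro p ⟨hp, hpF⟩
    obtain ⟨i, hi⟩ : ∃ i, p.rep i ≠ 0 := Function.ne_iff.1 p.rep_nonzero
    rw [Set.mem_iUnion]
    have hp' : Projectivization.mk ℂ p.rep p.rep_nonzero ∈ closedPts f := by rwa [p.mk_rep]
    exact ⟨i, (stmt_A1 ι L f p.rep p.rep_nonzero i hi hp').1, hp, hi, hpF⟩
  refine Set.Finite.subset (Set.finite_iUnion fun i => ?_) this
  by_cases hi : f i = 0
  · convert Set.finite_empty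
    ext p
    simp [hi]
  · refine Set.Finite.subset (finite_zero_chart h1 f i hi hF hF0) ?_
    rintro p ⟨-, h⟩
    exact h

omit [Fintype ι] in
lemma exists_linear_form (h1 : Algebra.trdeg ℂ L = 1) (f : ι → L)
    (hgen : IntermediateField.adjoin ℂ (Set.range fun ij : ι × ι => f ij.1 / f ij.2) = ⊤)
    (p : PSpace ι) (hp : p ∈ closedPts f) :
    ∃ H : MvPolynomial ι ℂ, IsForm H 1 ∧ eval p.rep H = 0 ∧ aeval f H ≠ 0 := by
  by_contra hcon
  push Not at hcon
  obtain ⟨i, hi⟩ : ∃ i, p.rep i ≠ 0 := Function.ne_iff.1 p.rep_nonzero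
  have hp' : Projectivization.mk ℂ p.rep p.rep_nonzero ∈ closedPts f := by rwa [p.mk_rep]
  have hfi := (stmt_A1 ι L f p.rep p.rep_nonzero i hi hp').1
  have key : ∀ j, f j = algebraMap ℂ L (p.rep j / p.rep i) * f i := by
    intro j
    have := hcon (C (p.rep i) * X j - C (p.rep j) * X i)
      (((isHomogeneous_C_mul_X _ _)).sub (isHomogeneous_C_mul_X _ _)) (by simp; ring)
    simp only [map_sub, map_mul, aeval_X, algHom_C] at this
    rw [map_div₀, div_mul_eq_mul_div, eq_div_iff (by simpa using hi)]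
    rw [sub_eq_zero] at this
    rw [← this, mul_comm]
  have hbot : (⊤ : IntermediateField ℂ L) ≤ ⊥ := by
    rw [← hgen]
    apply IntermediateField.adjoin_le_iff.2
    rintro _ ⟨⟨j, k⟩, rfl⟩
    simp only
    rw [key j, key k, mul_div_mul_right _ _ hfi, ← map_div₀]
    exact IntermediateField.algebraMap_mem _ _
  have halg : Algebra.IsAlgebraic ℂ L := by
    constructor
    intro z
    have hz : z ∈ (⊥ : IntermediateField ℂ L) := hbot (by trivial)
    obtain ⟨c, rfl⟩ := IntermediateField.mem_bot.1 hz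
    exact isAlgebraic_algebraMap c
  rw [_root_.trdeg_eq_zero] at h1
  exact zero_ne_one h1

end

theorem stmt_A6 : Stmt_A6 := by
  intro ι L _ _ _ f hf hgen h1
  classical
  refine ⟨⟨{F | ∃ d, IsForm F d ∧ aeval f F = 0}, ?_, ?_⟩, ?_, ?_, ?_⟩
  · rintro F ⟨d, hF, -⟩
    exact ⟨d, hF⟩
  · ext p
    constructor
    · rintro hp F ⟨d, hF, h0⟩
      exact hp d F hF h0
    · intro hp d F hF h0
      exact hp F ⟨d, hF, h0⟩
  · rintro A B ⟨SA, hSA, rfl⟩ ⟨SB, hSB, rfl⟩ hAB
    by_contra hcon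
    push Not at hcon
    obtain ⟨hA, hB⟩ := hcon
    obtain ⟨p, hp, hpA⟩ := Set.not_subset.1 hA
    obtain ⟨q, hq, hqB⟩ := Set.not_subset.1 hB
    simp only [Set.mem_ofPred_eq, not_forall] at hpA hqB
    obtain ⟨F, hFS, hF⟩ := hpA
    obtain ⟨G, hGS, hG⟩ := hqB
    obtain ⟨d, hFd⟩ := hSA F hFS
    obtain ⟨e, hGe⟩ := hSB G hGS
    have hF0 : aeval f F ≠ 0 := fun h => hF (hp d F hFd h)
    have hG0 : aeval f G ≠ 0 := fun h => hG (hq e G hGe h)
    have := stmt_A4 ι L f hf (d + e) (F * G) (hFd.mul hGe) (by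
      intro r hr
      rw [map_mul]
      rcases hAB hr with h | h
      · rw [h F hFS, zero_mul]
      · rw [h G hGS, mul_zero])
    rw [map_mul] at this
    exact (mul_ne_zero hF0 hG0) this
  · intro hfin
    have hH : ∀ p : PSpace ι, ∃ H : MvPolynomial ι ℂ, IsForm H 1 ∧
        (p ∈ closedPts f → eval p.rep H = 0) ∧ (p ∈ closedPts f → aeval f H ≠ 0) := by
      intro p
      by_cases hp : p ∈ closedPts f
      · obtain ⟨H, a, b, c⟩ := exists_linear_form h1 f hgen p hp
        exact ⟨H, a, fun _ => b, fun _ => c⟩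
      · exact ⟨0, isHomogeneous_zero _ _ _, fun h => absurd h hp, fun h => absurd h hp⟩
    choose H h2 h3 h4 using hH
    have h5 := stmt_A4 ι L f hf (∑ _p ∈ hfin.toFinset, 1) (∏ p ∈ hfin.toFinset, H p)
      (IsHomogeneous.prod _ _ _ (fun p _ => h2 p)) (by
        intro r hr
        rw [map_prod]
        exact Finset.prod_eq_zero (hfin.mem_toFinset.2 hr) (h3 r hr))
    rw [map_prod, Finset.prod_eq_zero_iff] at h5
    obtain ⟨p, hp, hp0⟩ := h5
    exact h4 p (hfin.mem_toFinset.1 hp) hp0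
  · rintro A ⟨SA, hSA, rfl⟩ hsub hne
    obtain ⟨p, hp, hpA⟩ := Set.not_subset.1 (fun h => hne (Set.Subset.antisymm hsub h))
    simp only [Set.mem_ofPred_eq, not_forall] at hpA
    obtain ⟨F, hFS, hF⟩ := hpA
    obtain ⟨d, hFd⟩ := hSA F hFS
    have hF0 : aeval f F ≠ 0 := fun h => hF (hp d F hFd h)
    refine Set.Finite.subset (finite_zero h1 f hFd hF0) ?_
    intro r hr
    exact ⟨hsub hr, hr F hFS⟩

end Pool.Agent.MPad0563
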