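import Pool.Agent.Work.MP_ad0563_ag_helper72.Proper

/-!
# MP_ad0563_ag : block P1 (finite fibre lemma)
-/

open MvPolynomial

namespace Pool.Agent.MPad0563

section
variable {L : Type} [Field L] [Algebra ℂ L]

/-- a character of `R[s]`, `s` transcendental over `R`, which extends `χ` and sends `s` to
`0`. -/
lemma exists_character_transcendental (R : Subalgebra ℂ L) (χ : R →ₐ[ℂ] ℂ) (s : L)
    (hs : Transcendental R s) :
    ∃ (A : Subalgebra ℂ L) (χ' : A →ₐ[ℂ] ℂ),
      (∀ (z : L) (hz : z ∈ R), ∃ hz' : z ∈ A, χ' ⟨z, hz'⟩ = χ ⟨z, hz⟩) ∧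
      ∃ hs' : s ∈ A, χ' ⟨s, hs'⟩ = 0 := by
  let e := Polynomial.algEquivOfTranscendental R s hs
  let φ : Algebra.adjoin R {s} →+* ℂ :=
    (Polynomial.eval₂RingHom (χ : R →+* ℂ) 0).comp (e.symm : Algebra.adjoin R {s} →+* _)
  have hφR : ∀ r : R, φ (algebraMap R (Algebra.adjoin R {s}) r) = χ r := by
    intro r
    show Polynomial.eval₂ (χ : R →+* ℂ) 0 (e.symm (algebraMap R (Algebra.adjoin R {s}) r)) = χ r
    rw [AlgEquiv.commutes]
    show Polynomial.eval₂ (χ : R →+* ℂ) 0 (Polynomial.C r) = χ r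
    rw [Polynomial.eval₂_C]
    rfl
  have hsm : s ∈ Algebra.adjoin R {s} := Algebra.subset_adjoin (Set.mem_singleton s)
  have hφs : φ ⟨s, hsm⟩ = 0 := by
    have h1 : e Polynomial.X = ⟨s, hsm⟩ := by
      show Polynomial.aeval _ Polynomial.X = _
      rw [Polynomial.aeval_X]
    show Polynomial.eval₂ (χ : R →+* ℂ) 0 (e.symm ⟨s, hsm⟩) = 0
    rw [← h1, AlgEquiv.symm_apply_apply, Polynomial.eval₂_X]
  let A : Subalgebra ℂ L := (Algebra.adjoin R {s}).restrictScalars ℂ
  let χ' : A →ₐ[ℂ] ℂ :=
    { (φ : A →+* ℂ) with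
      commutes' := by
        intro c
        have := hφR (algebraMap ℂ R c)
        rw [AlgHom.commutes] at this
        exact this }
  refine ⟨A, χ', ?_, hsm, hφs⟩
  intro z hz
  exact ⟨Subalgebra.algebraMap_mem (Algebra.adjoin R {s}) (⟨z, hz⟩ : R), hφR ⟨z, hz⟩⟩

end

/-- finitely many non-zero vectors in `ℂ^ι` and one non-zero vector in `L^ι` avoid a common
linear form. -/
lemma exists_linear_avoid {ι L : Type} [Fintype ι] [Field L] [Algebra ℂ L] (f : ι → L)
    (hf : f ≠ 0) (S : Set (PSpace ι)) (hS : S.Finite) :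
    ∃ a : ι → ℂ, (∀ p ∈ S, ∑ i, a i * p.rep i ≠ 0) ∧ ∑ i, algebraMap ℂ L (a i) * f i ≠ 0 := by
  classical
  have := hS.fintype
  let V : Option S → Subspace ℂ (ι → ℂ) := fun o => match o with
    | none =>
      { carrier := {a | ∑ i, algebraMap ℂ L (a i) * f i = 0}
        add_mem' := by
          intro a b ha hb
          simp only [Set.mem_ofPred_eq, Pi.add_apply, map_add, add_mul, Finset.sum_add_distrib]
            at ha hb ⊢
          rw [ha, hb, add_zero]
        zero_mem' := by simp
        smul_mem' := by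
          intro c a ha
          simp only [Set.mem_ofPred_eq, Pi.smul_apply, smul_eq_mul, map_mul, mul_assoc] at ha ⊢
          rw [← Finset.mul_sum, ha, mul_zero] }
    | some p =>
      { carrier := {a | ∑ i, a i * p.1.rep i = 0}
        add_mem' := by
          intro a b ha hb
          simp only [Set.mem_ofPred_eq, Pi.add_apply, add_mul, Finset.sum_add_distrib]
            at ha hb ⊢
          rw [ha, hb, add_zero]
        zero_mem' := by simp
        smul_mem' := by
          intro c a ha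
          simp only [Set.mem_ofPred_eq, Pi.smul_apply, smul_eq_mul, mul_assoc] at ha ⊢
          rw [← Finset.mul_sum, ha, mul_zero] }
  by_contra hcon
  push Not at hcon
  have hcov : ⋃ o, (V o : Set (ι → ℂ)) = Set.univ := by
    rw [Set.eq_univ_iff_forall]
    intro a
    rw [Set.mem_iUnion]
    by_cases h : ∀ p ∈ S, ∑ i, a i * p.rep i ≠ 0
    · exact ⟨none, hcon a h⟩
    · push Not at h
      obtain ⟨p, hp, h⟩ := h
      exact ⟨some ⟨p, hp⟩, h⟩
  obtain ⟨o, ho⟩ := Subspace.exists_eq_top_of_iUnion_eq_univ hcov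
  cases o with
  | none =>
    obtain ⟨i, hi⟩ : ∃ i, f i ≠ 0 := Function.ne_iff.1 hf
    have h1 : Pi.single i (1 : ℂ) ∈ V none := by rw [ho]; trivial
    have h2 : ∑ j, algebraMap ℂ L ((Pi.single i (1 : ℂ) : ι → ℂ) j) * f j = 0 := h1
    rw [Finset.sum_eq_single i] at h2
    · simp at h2
      exact hi h2
    · intro j _ hj
      simp [hj]
    · simp
  | some p =>
    obtain ⟨i, hi⟩ : ∃ i, p.1.rep i ≠ 0 := Function.ne_iff.1 p.1.rep_nonzero
    have h1 : Pi.single i (1 : ℂ) ∈ V (some p) := by rw [ho]; trivial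
    have h2 : ∑ j, ((Pi.single i (1 : ℂ) : ι → ℂ) j) * p.1.rep j = 0 := h1
    rw [Finset.sum_eq_single i] at h2
    · simp at h2
      exact hi h2
    · intro j _ hj
      simp [hj]
    · simp

theorem stmt_P1 : Stmt_P1 := by
  intro ι κ L _ _ _ _ f g hf hg q hq hfin i0 j0
  classical
  set F0 := IntermediateField.adjoin ℂ (Set.range fun kl : κ × κ => g kl.1 / g kl.2) with hF0
  obtain ⟨k, hk⟩ : ∃ k, q.rep k ≠ 0 := Function.ne_iff.1 q.rep_nonzero
  have hq' : Projectivization.mk ℂ q.rep q.rep_nonzero ∈ closedPts g := by rwa [q.mk_rep]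
  obtain ⟨hgk, χ, hχ⟩ := stmt_A1 κ L g q.rep q.rep_nonzero k hk hq'
  obtain ⟨a, ha1, ha2⟩ := exists_linear_avoid f hf _ hfin
  set H : MvPolynomial ι ℂ := ∑ i, C (a i) * X i with hH
  have hHf : IsForm H 1 := IsHomogeneous.sum _ _ _ (fun i _ => isHomogeneous_C_mul_X _ _)
  have hHe : ∀ v : ι → ℂ, eval v H = ∑ i, a i * v i := by
    intro v
    rw [hH, map_sum]
    simp
  have hHa : ∀ v : ι → L, aeval v H = ∑ i, algebraMap ℂ L (a i) * v i := by
    intro v
    rw [hH, map_sum]
    simp
  set hh : L := ∑ i, algebraMap ℂ L (a i) * f i with hhh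
  have key : ∀ i, IsAlgebraic F0 (f i / hh) := by
    intro i
    by_contra hz
    have hfi : f i ≠ 0 := by
      intro h0
      apply hz
      rw [h0, zero_div]
      exact isAlgebraic_zero
    have hz0 : f i / hh ≠ 0 := div_ne_zero hfi ha2
    set s : L := (f i / hh)⁻¹ with hs
    have hRF : ∀ z ∈ chart g k, z ∈ F0 := by
      intro z hz
      have : chart g k ≤ F0.toSubalgebra := by
        apply Algebra.adjoin_le
        rintro _ ⟨l, rfl⟩
        exact IntermediateField.subset_adjoin _ _ ⟨(l, k), rfl⟩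
      exact this hz
    have htr : Transcendental (chart g k) s := by
      rintro ⟨p, hp0, hp⟩
      apply hz
      rw [← IsAlgebraic.inv_iff]
      let φ : chart g k →+* F0 :=
        Subring.inclusion (S := (chart g k).toSubring) (T := F0.toSubring) hRF
      have hφ : Function.Injective φ := by
        intro x y hxy
        exact Subtype.ext (congrArg (fun z : F0 => (z : L)) hxy)
      refine ⟨p.map φ, (Polynomial.map_ne_zero_iff hφ).2 hp0, ?_⟩
      rw [Polynomial.aeval_def, Polynomial.eval₂_map]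
      exact hp
    obtain ⟨A, χ', h1, hsA, h2⟩ := exists_character_transcendental (chart g k) χ s htr
    obtain ⟨V, hV1, hV2⟩ := exists_valuation A χ'
    obtain ⟨j, v, hv, hj0, hj, hvj, hP, hpair⟩ := exists_lift f g hf q k hgk χ hχ V
      (fun z hz => hV1 z (h1 z hz).1) (by
        intro z hz
        obtain ⟨hz', h3⟩ := h1 z z.2
        have := hV2 ⟨z, hz'⟩ (by rw [h3]; exact hz)
        exact this)
    have h3 : s ∈ V.nonunits := hV2 ⟨s, hsA⟩ h2
    have h4 : aeval (fun i => f i / f j) H ∈ V.nonunits := by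
      have e1 : aeval (fun i => f i / f j) H = (f i / f j) * s := by
        rw [hHa]
        have : ∀ l, algebraMap ℂ L (a l) * (f l / f j) = algebraMap ℂ L (a l) * f l / f j := by
          intro l
          rw [mul_div_assoc]
        rw [Finset.sum_congr rfl (fun l _ => this l), ← Finset.sum_div, ← hhh, hs]
        field_simp
      rw [e1, ValuationSubring.mem_nonunits_iff, map_mul]
      exact mul_lt_one_of_nonneg_of_lt_one_right ((V.valuation_le_one_iff _).2 (hj i)) zero_le
        ((ValuationSubring.mem_nonunits_iff V).1 h3)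
    have h5 := hP H h4
    apply ha1 _ hpair
    rw [← hHe]
    exact (eval_rep_eq_zero_iff hHf v hv).2 h5
  have : f i0 / f j0 = (f i0 / hh) / (f j0 / hh) := by
    rw [div_div_div_cancel_right₀ ha2]
  rw [this, div_eq_mul_inv]
  exact (key i0).mul ((key j0).inv)

end Pool.Agent.MPad0563
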