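import Pool.Agent.Work.MP_ad0563_ag_helper72.G6

/-!
# MP_ad0563_ag : block G7
-/

open MvPolynomial

namespace Pool.Agent.MPad0563

section
variable {K : Type} [Field K] [Algebra ℂ K]

omit [Algebra ℂ K] in
lemma range2 (z0 z1 w : K) : (Set.range fun i : Fin 2 => ![z0, z1] i / w) = {z0 / w, z1 / w} := by
  ext s
  constructor
  · rintro ⟨i, rfl⟩
    fin_cases i <;> simp
  · rintro (rfl | rfl)
    · exact ⟨0, by simp⟩
    · exact ⟨1, by simp⟩

omit [Algebra ℂ K] in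
lemma range4 (z0 z1 z2 z3 w : K) : (Set.range fun i : Fin 4 => ![z0, z1, z2, z3] i / w) =
    {z0 / w, z1 / w, z2 / w, z3 / w} := by
  ext s
  constructor
  · rintro ⟨i, rfl⟩
    fin_cases i <;> simp
  · rintro (rfl | rfl | rfl | rfl)
    · exact ⟨0, by simp⟩
    · exact ⟨1, by simp⟩
    · exact ⟨2, by simp⟩
    · exact ⟨3, by simp⟩

lemma adjoin_eq_of {S T : Set K} (h1 : ∀ s ∈ S, s ∈ Algebra.adjoin ℂ T)
    (h2 : ∀ s ∈ T, s ∈ Algebra.adjoin ℂ S) : Algebra.adjoin ℂ S = Algebra.adjoin ℂ T :=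
  le_antisymm (Algebra.adjoin_le h1) (Algebra.adjoin_le h2)

lemma mem_adjoin_of {S : Set K} {s : K} (h : s ∈ S) : s ∈ Algebra.adjoin ℂ S :=
  Algebra.subset_adjoin h

/-- the big sup in the charts of type `(lll, kkk)`: `S1` are the ratios of the first factor. -/
lemma sup_eq_T1 {S1 S2 : Set K} (t' x' y' a' b' : K)
    (h1 : ∀ s ∈ S1, s ∈ algT1 t' x' y' a' b') (h2 : ∀ s ∈ S2, s ∈ algT1 t' x' y' a' b')
    (h3 : t' ∈ Algebra.adjoin ℂ (S1 ∪ S2)) (h4 : x' ∈ Algebra.adjoin ℂ (S1 ∪ S2))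
    (h5 : y' ∈ Algebra.adjoin ℂ (S1 ∪ S2)) (h6 : a' ∈ Algebra.adjoin ℂ (S1 ∪ S2))
    (h7 : b' ∈ Algebra.adjoin ℂ (S1 ∪ S2)) :
    Algebra.adjoin ℂ S1 ⊔ Algebra.adjoin ℂ S2 = algT1 t' x' y' a' b' := by
  rw [← Algebra.adjoin_union]
  apply adjoin_eq_of
  · rintro s (hs | hs)
    · exact h1 s hs
    · exact h2 s hs
  · rintro s (rfl | rfl | rfl | rfl | rfl)
    · exact h3
    · exact h4
    · exact h5
    · exact h6
    · exact h7

end

/-- step 1: every closed point of `Y` lies in one of nine charts. -/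
lemma exists_good_index {K : Type} [Field K] [Algebra ℂ K] {t x y a b : K}
    (h : IsDatum t x y a b) (p : PSpace (Cub 2 × Cub 4)) (hp : p ∈ (varY h).pts) :
    ∃ (u : Cub 2) (w : Cub 4), p.rep (u, w) ≠ 0 ∧
      ((u = Sum.inl (0, 0, 0) ∧ (w = Sum.inl (0, 0, 0) ∨ w = Sum.inl (2, 2, 2) ∨
        w = Sum.inl (3, 3, 3))) ∨
       (u = Sum.inl (1, 1, 1) ∧ (w = Sum.inl (1, 1, 1) ∨ w = Sum.inl (2, 2, 2) ∨
        w = Sum.inl (3, 3, 3))) ∨
       (u = Sum.inr 0 ∧ (w = Sum.inr 0 ∨ w = Sum.inl (2, 2, 2) ∨ w = Sum.inl (3, 3, 3)))) := by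
  set v := p.rep with hv
  have hX : ∀ (i : Cub 2 × Cub 4), IsForm (X i : MvPolynomial (Cub 2 × Cub 4) ℂ) 1 :=
    fun i => isHomogeneous_X ℂ i
  have hc : ∀ u w, coordY t x y a b (u, w) = cub ![1, t] x y u * cub ![1, t, a, b] x y w :=
    fun _ _ => rfl
  have hc1 : ∀ i j k, cub ![1, t] x y (Sum.inl (i, j, k)) = ![1, t] i * ![1, t] j * ![1, t] k :=
    fun _ _ _ => rfl
  have hc2 : ∀ i j k, cub ![1, t, a, b] x y (Sum.inl (i, j, k)) =
      ![1, t, a, b] i * ![1, t, a, b] j * ![1, t, a, b] k := fun _ _ _ => rfl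
  have hc3 : cub ![1, t] x y (Sum.inr 0) = x := rfl
  have hc4 : cub ![1, t] x y (Sum.inr 1) = y := rfl
  have hc5 : cub ![1, t, a, b] x y (Sum.inr 0) = x := rfl
  have hc6 : cub ![1, t, a, b] x y (Sum.inr 1) = y := rfl
  have hrel := h.rel
  have R1 : ∀ i j k w, v (Sum.inl (i, j, k), w) ^ 3 = v (Sum.inl (i, i, i), w) *
      v (Sum.inl (j, j, j), w) * v (Sum.inl (k, k, k), w) := by
    intro i j k w
    have h0 : aeval (coordY t x y a b) (X (Sum.inl (i, j, k), w) ^ 3 - X (Sum.inl (i, i, i), w) *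
      X (Sum.inl (j, j, j), w) * X (Sum.inl (k, k, k), w) : MvPolynomial _ ℂ) = 0 := by
      simp only [map_sub, map_mul, map_pow, aeval_X, hc, hc1]
      ring
    have := hp 3 _ (((hX _).pow 3).sub (((hX _).mul (hX _)).mul (hX _))) h0
    simp only [map_sub, map_mul, map_pow, eval_X] at this
    exact sub_eq_zero.1 this
  have R2 : ∀ u i j k, v (u, Sum.inl (i, j, k)) ^ 3 = v (u, Sum.inl (i, i, i)) *
      v (u, Sum.inl (j, j, j)) * v (u, Sum.inl (k, k, k)) := by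
    intro u i j k
    have h0 : aeval (coordY t x y a b) (X (u, Sum.inl (i, j, k)) ^ 3 - X (u, Sum.inl (i, i, i)) *
      X (u, Sum.inl (j, j, j)) * X (u, Sum.inl (k, k, k)) : MvPolynomial _ ℂ) = 0 := by
      simp only [map_sub, map_mul, map_pow, aeval_X, hc, hc2]
      ring
    have := hp 3 _ (((hX _).pow 3).sub (((hX _).mul (hX _)).mul (hX _))) h0
    simp only [map_sub, map_mul, map_pow, eval_X] at this
    exact sub_eq_zero.1 this
  have R3 : ∀ w, v (Sum.inr 0, w) ^ 3 + v (Sum.inr 1, w) ^ 3 + v (Sum.inl (0, 0, 0), w) ^ 3 +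
      v (Sum.inl (1, 1, 1), w) ^ 3 = 0 := by
    intro w
    have h0 : aeval (coordY t x y a b) (X (Sum.inr 0, w) ^ 3 + X (Sum.inr 1, w) ^ 3 +
        X (Sum.inl (0, 0, 0), w) ^ 3 + X (Sum.inl (1, 1, 1), w) ^ 3 : MvPolynomial _ ℂ) = 0 := by
      simp only [map_add, map_pow, aeval_X, hc, hc1, hc3, hc4]
      simp only [Matrix.cons_val_zero, Matrix.cons_val_one]
      linear_combination (cub ![1, t, a, b] x y w) ^ 3 * hrel
    have := hp 3 _ (((((hX _).pow 3).add ((hX _).pow 3)).add ((hX _).pow 3)).add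
      ((hX _).pow 3)) h0
    simpa only [map_add, map_pow, eval_X] using this
  have R4 : ∀ u, v (u, Sum.inr 0) ^ 3 + v (u, Sum.inr 1) ^ 3 + v (u, Sum.inl (0, 0, 0)) ^ 3 +
      v (u, Sum.inl (1, 1, 1)) ^ 3 = 0 := by
    intro u
    have h0 : aeval (coordY t x y a b) (X (u, Sum.inr 0) ^ 3 + X (u, Sum.inr 1) ^ 3 +
        X (u, Sum.inl (0, 0, 0)) ^ 3 + X (u, Sum.inl (1, 1, 1)) ^ 3 : MvPolynomial _ ℂ) = 0 := by
      simp only [map_add, map_pow, aeval_X, hc, hc2, hc5, hc6]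
      simp only [Matrix.cons_val_zero, Matrix.cons_val_one]
      linear_combination (cub ![1, t] x y u) ^ 3 * hrel
    have := hp 3 _ (((((hX _).pow 3).add ((hX _).pow 3)).add ((hX _).pow 3)).add
      ((hX _).pow 3)) h0
    simpa only [map_add, map_pow, eval_X] using this
  have R5 : ∀ (u u' : Cub 2) (w w' : Cub 4), cub ![1, t] x y u = cub ![1, t, a, b] x y w →
      cub ![1, t] x y u' = cub ![1, t, a, b] x y w' →
      v (u, w') ^ 2 = v (u, w) * v (u', w') := by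
    intro u u' w w' e1 e2
    have h0 : aeval (coordY t x y a b) (X (u, w') ^ 2 - X (u, w) * X (u', w') :
        MvPolynomial _ ℂ) = 0 := by
      simp only [map_sub, map_mul, map_pow, aeval_X, hc, e1, e2]
      ring
    have := hp 2 _ (((hX _).pow 2).sub ((hX _).mul (hX _))) h0
    simp only [map_sub, map_mul, map_pow, eval_X] at this
    exact sub_eq_zero.1 this
  have ne_of_sq : ∀ {α β γ : ℂ}, α ^ 2 = β * γ → α ≠ 0 → β ≠ 0 := by
    intro α β γ h1 h2 h3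
    rw [h3, zero_mul] at h1
    exact h2 (pow_eq_zero_iff (by norm_num) |>.1 h1)
  have ne_of_cube : ∀ {α β γ δ : ℂ}, α ^ 3 = β * γ * δ → α ≠ 0 → β ≠ 0 := by
    intro α β γ δ h1 h2 h3
    rw [h3, zero_mul, zero_mul] at h1
    exact h2 (pow_eq_zero_iff (by norm_num) |>.1 h1)
  obtain ⟨⟨u0, w0⟩, h00⟩ : ∃ i, v i ≠ 0 := Function.ne_iff.1 p.rep_nonzero
  obtain ⟨u, hu, huv⟩ : ∃ u : Cub 2, (u = Sum.inl (0, 0, 0) ∨ u = Sum.inl (1, 1, 1) ∨
      u = Sum.inr 0) ∧ v (u, w0) ≠ 0 := by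
    rcases u0 with ⟨i, j, k⟩ | u0
    · have := ne_of_cube (R1 i j k w0) h00
      fin_cases i
      · exact ⟨_, Or.inl rfl, this⟩
      · exact ⟨_, Or.inr (Or.inl rfl), this⟩
    · fin_cases u0
      · exact ⟨_, Or.inr (Or.inr rfl), h00⟩
      · by_contra hcon
        push Not at hcon
        have h1 := hcon _ (Or.inl rfl)
        have h2 := hcon _ (Or.inr (Or.inl rfl))
        have h3 := hcon _ (Or.inr (Or.inr rfl))
        have h4 := R3 w0
        rw [h1, h2, h3] at h4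
        simp only [ne_eq, OfNat.ofNat_ne_zero, not_false_eq_true, zero_pow, zero_add, add_zero]
          at h4
        exact h00 (pow_eq_zero_iff (by norm_num) |>.1 h4)
  obtain ⟨w, hw, hwv⟩ : ∃ w : Cub 4, (w = Sum.inl (0, 0, 0) ∨ w = Sum.inl (1, 1, 1) ∨
      w = Sum.inr 0 ∨ w = Sum.inl (2, 2, 2) ∨ w = Sum.inl (3, 3, 3)) ∧ v (u, w) ≠ 0 := by
    rcases w0 with ⟨i, j, k⟩ | w0
    · have := ne_of_cube (R2 u i j k) huv
      fin_cases i
      · exact ⟨_, Or.inl rfl, this⟩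
      · exact ⟨_, Or.inr (Or.inl rfl), this⟩
      · exact ⟨_, Or.inr (Or.inr (Or.inr (Or.inl rfl))), this⟩
      · exact ⟨_, Or.inr (Or.inr (Or.inr (Or.inr rfl))), this⟩
    · fin_cases w0
      · exact ⟨_, Or.inr (Or.inr (Or.inl rfl)), huv⟩
      · by_contra hcon
        push Not at hcon
        have h1 := hcon _ (Or.inl rfl)
        have h2 := hcon _ (Or.inr (Or.inl rfl))
        have h3 := hcon _ (Or.inr (Or.inr (Or.inl rfl)))
        have h4 := R4 u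
        rw [h1, h2, h3] at h4
        simp only [ne_eq, OfNat.ofNat_ne_zero, not_false_eq_true, zero_pow, zero_add, add_zero]
          at h4
        exact huv (pow_eq_zero_iff (by norm_num) |>.1 h4)
  have m0 : cub ![1, t] x y (Sum.inl (0, 0, 0)) = cub ![1, t, a, b] x y (Sum.inl (0, 0, 0)) := by
    simp [hc1, hc2]
  have m1 : cub ![1, t] x y (Sum.inl (1, 1, 1)) = cub ![1, t, a, b] x y (Sum.inl (1, 1, 1)) := by
    simp [hc1, hc2]
  have mx : cub ![1, t] x y (Sum.inr 0) = cub ![1, t, a, b] x y (Sum.inr 0) := rfl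
  rcases hw with rfl | rfl | rfl | hw
  · rcases hu with rfl | rfl | rfl
    · exact ⟨_, _, hwv, Or.inl ⟨rfl, Or.inl rfl⟩⟩
    · exact ⟨_, _, ne_of_sq (R5 _ _ _ _ m1 m0) hwv, Or.inr (Or.inl ⟨rfl, Or.inl rfl⟩)⟩
    · exact ⟨_, _, ne_of_sq (R5 _ _ _ _ mx m0) hwv, Or.inr (Or.inr ⟨rfl, Or.inl rfl⟩)⟩
  · rcases hu with rfl | rfl | rfl
    · exact ⟨_, _, ne_of_sq (R5 _ _ _ _ m0 m1) hwv, Or.inl ⟨rfl, Or.inl rfl⟩⟩
    · exact ⟨_, _, hwv, Or.inr (Or.inl ⟨rfl, Or.inl rfl⟩)⟩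
    · exact ⟨_, _, ne_of_sq (R5 _ _ _ _ mx m1) hwv, Or.inr (Or.inr ⟨rfl, Or.inl rfl⟩)⟩
  · rcases hu with rfl | rfl | rfl
    · exact ⟨_, _, ne_of_sq (R5 _ _ _ _ m0 mx) hwv, Or.inl ⟨rfl, Or.inl rfl⟩⟩
    · exact ⟨_, _, ne_of_sq (R5 _ _ _ _ m1 mx) hwv, Or.inr (Or.inl ⟨rfl, Or.inl rfl⟩)⟩
    · exact ⟨_, _, hwv, Or.inr (Or.inr ⟨rfl, Or.inl rfl⟩)⟩
  · rcases hu with hu | hu | hu
    · exact ⟨_, _, hwv, Or.inl ⟨hu, Or.inr hw⟩⟩
    · exact ⟨_, _, hwv, Or.inr (Or.inl ⟨hu, Or.inr hw⟩)⟩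
    · exact ⟨_, _, hwv, Or.inr (Or.inr ⟨hu, Or.inr hw⟩)⟩

section charts
variable {K : Type} [Field K] [Algebra ℂ K]

lemma gens_T1 (t x y a b : K) : t ∈ algT1 t x y a b ∧ x ∈ algT1 t x y a b ∧
    y ∈ algT1 t x y a b ∧ a ∈ algT1 t x y a b ∧ b ∈ algT1 t x y a b :=
  ⟨mem_adjoin_of (by simp), mem_adjoin_of (by simp),
      mem_adjoin_of (by simp), mem_adjoin_of (by simp), mem_adjoin_of (by simp)⟩

variable (t x y a b : K)

lemma C0 : chart (cub ![1, t] x y) (Sum.inl (0, 0, 0)) =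
    Algebra.adjoin ℂ ({1, t} ∪ {x, y}) := by
  have := chart_cub_inl ![1, t] x y 0 (by simp)
  rw [this, range2]
  simp

lemma C1 (ht : t ≠ 0) : chart (cub ![1, t] x y) (Sum.inl (1, 1, 1)) =
    Algebra.adjoin ℂ ({t⁻¹, 1} ∪ {x / t ^ 3, y / t ^ 3}) := by
  have := chart_cub_inl ![1, t] x y 1 (by simpa using ht)
  rw [this, range2]
  simp [ht]

lemma D0 : chart (cub ![1, t, a, b] x y) (Sum.inl (0, 0, 0)) =
    Algebra.adjoin ℂ ({1, t, a, b} ∪ {x, y}) := by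
  have := chart_cub_inl ![1, t, a, b] x y 0 (by simp)
  rw [this, range4]
  simp

lemma D1 (ht : t ≠ 0) : chart (cub ![1, t, a, b] x y) (Sum.inl (1, 1, 1)) =
    Algebra.adjoin ℂ ({t⁻¹, 1, a / t, b / t} ∪ {x / t ^ 3, y / t ^ 3}) := by
  have := chart_cub_inl ![1, t, a, b] x y 1 (by simpa using ht)
  rw [this, range4]
  simp [ht]

lemma D2 (ha : a ≠ 0) : chart (cub ![1, t, a, b] x y) (Sum.inl (2, 2, 2)) =
    Algebra.adjoin ℂ ({a⁻¹, t / a, 1, b / a} ∪ {x / a ^ 3, y / a ^ 3}) := by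
  have := chart_cub_inl ![1, t, a, b] x y 2 (by simpa using ha)
  rw [this, range4]
  simp [ha]

lemma D3 (hb : b ≠ 0) : chart (cub ![1, t, a, b] x y) (Sum.inl (3, 3, 3)) =
    Algebra.adjoin ℂ ({b⁻¹, t / b, a / b, 1} ∪ {x / b ^ 3, y / b ^ 3}) := by
  have := chart_cub_inl ![1, t, a, b] x y 3 (by simpa using hb)
  rw [this, range4]
  simp [hb]

lemma chartY_00 : chart (cub ![1, t] x y) (Sum.inl (0, 0, 0)) ⊔
    chart (cub ![1, t, a, b] x y) (Sum.inl (0, 0, 0)) = algT1 t x y a b := by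
  rw [C0, D0]
  obtain ⟨m1, m2, m3, m4, m5⟩ := gens_T1 t x y a b
  apply sup_eq_T1
  · rintro s ((rfl | rfl) | (rfl | rfl))
    · exact one_mem _
    · exact m1
    · exact m2
    · exact m3
  · rintro s ((rfl | rfl | rfl | rfl) | (rfl | rfl))
    · exact one_mem _
    · exact m1
    · exact m4
    · exact m5
    · exact m2
    · exact m3
  all_goals exact mem_adjoin_of (by simp)

lemma chartY_02 (ha : a ≠ 0) : chart (cub ![1, t] x y) (Sum.inl (0, 0, 0)) ⊔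
    chart (cub ![1, t, a, b] x y) (Sum.inl (2, 2, 2)) = algT1 t x y a⁻¹ (b / a) := by
  rw [C0, D2 _ _ _ _ _ ha]
  obtain ⟨m1, m2, m3, m4, m5⟩ := gens_T1 t x y a⁻¹ (b / a)
  apply sup_eq_T1
  · rintro s ((rfl | rfl) | (rfl | rfl))
    · exact one_mem _
    · exact m1
    · exact m2
    · exact m3
  · rintro s ((rfl | rfl | rfl | rfl) | (rfl | rfl))
    · exact m4
    · have : t / a = t * a⁻¹ := by field_simp
      rw [this]; exact mul_mem m1 m4
    · exact one_mem _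
    · exact m5
    · have : x / a ^ 3 = x * a⁻¹ ^ 3 := by field_simp
      rw [this]; exact mul_mem m2 (pow_mem m4 3)
    · have : y / a ^ 3 = y * a⁻¹ ^ 3 := by field_simp
      rw [this]; exact mul_mem m3 (pow_mem m4 3)
  all_goals exact mem_adjoin_of (by simp)

lemma chartY_03 (hb : b ≠ 0) : chart (cub ![1, t] x y) (Sum.inl (0, 0, 0)) ⊔
    chart (cub ![1, t, a, b] x y) (Sum.inl (3, 3, 3)) = algT1 t x y b⁻¹ (a / b) := by
  rw [C0, D3 _ _ _ _ _ hb]
  obtain ⟨m1, m2, m3, m4, m5⟩ := gens_T1 t x y b⁻¹ (a / b)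
  apply sup_eq_T1
  · rintro s ((rfl | rfl) | (rfl | rfl))
    · exact one_mem _
    · exact m1
    · exact m2
    · exact m3
  · rintro s ((rfl | rfl | rfl | rfl) | (rfl | rfl))
    · exact m4
    · have : t / b = t * b⁻¹ := by field_simp
      rw [this]; exact mul_mem m1 m4
    · exact m5
    · exact one_mem _
    · have : x / b ^ 3 = x * b⁻¹ ^ 3 := by field_simp
      rw [this]; exact mul_mem m2 (pow_mem m4 3)
    · have : y / b ^ 3 = y * b⁻¹ ^ 3 := by field_simp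
      rw [this]; exact mul_mem m3 (pow_mem m4 3)
  all_goals exact mem_adjoin_of (by simp)

lemma chartY_11 (ht : t ≠ 0) : chart (cub ![1, t] x y) (Sum.inl (1, 1, 1)) ⊔
    chart (cub ![1, t, a, b] x y) (Sum.inl (1, 1, 1)) =
    algT1 t⁻¹ (x / t ^ 3) (y / t ^ 3) (a / t) (b / t) := by
  rw [C1 _ _ _ ht, D1 _ _ _ _ _ ht]
  obtain ⟨m1, m2, m3, m4, m5⟩ := gens_T1 t⁻¹ (x / t ^ 3) (y / t ^ 3) (a / t) (b / t)
  apply sup_eq_T1
  · rintro s ((rfl | rfl) | (rfl | rfl))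
    · exact m1
    · exact one_mem _
    · exact m2
    · exact m3
  · rintro s ((rfl | rfl | rfl | rfl) | (rfl | rfl))
    · exact m1
    · exact one_mem _
    · exact m4
    · exact m5
    · exact m2
    · exact m3
  all_goals exact mem_adjoin_of (by simp)

lemma chartY_12 (ht : t ≠ 0) (ha : a ≠ 0) : chart (cub ![1, t] x y) (Sum.inl (1, 1, 1)) ⊔
    chart (cub ![1, t, a, b] x y) (Sum.inl (2, 2, 2)) =
    algT1 t⁻¹ (x / t ^ 3) (y / t ^ 3) (t / a) (b / a) := by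
  rw [C1 _ _ _ ht, D2 _ _ _ _ _ ha]
  obtain ⟨m1, m2, m3, m4, m5⟩ := gens_T1 t⁻¹ (x / t ^ 3) (y / t ^ 3) (t / a) (b / a)
  apply sup_eq_T1
  · rintro s ((rfl | rfl) | (rfl | rfl))
    · exact m1
    · exact one_mem _
    · exact m2
    · exact m3
  · rintro s ((rfl | rfl | rfl | rfl) | (rfl | rfl))
    · have : a⁻¹ = t⁻¹ * (t / a) := by field_simp
      rw [this]; exact mul_mem m1 m4
    · exact m4
    · exact one_mem _
    · exact m5
    · have : x / a ^ 3 = (x / t ^ 3) * (t / a) ^ 3 := by field_simp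
      rw [this]; exact mul_mem m2 (pow_mem m4 3)
    · have : y / a ^ 3 = (y / t ^ 3) * (t / a) ^ 3 := by field_simp
      rw [this]; exact mul_mem m3 (pow_mem m4 3)
  all_goals exact mem_adjoin_of (by simp)

lemma chartY_13 (ht : t ≠ 0) (hb : b ≠ 0) : chart (cub ![1, t] x y) (Sum.inl (1, 1, 1)) ⊔
    chart (cub ![1, t, a, b] x y) (Sum.inl (3, 3, 3)) =
    algT1 t⁻¹ (x / t ^ 3) (y / t ^ 3) (t / b) (a / b) := by
  rw [C1 _ _ _ ht, D3 _ _ _ _ _ hb]
  obtain ⟨m1, m2, m3, m4, m5⟩ := gens_T1 t⁻¹ (x / t ^ 3) (y / t ^ 3) (t / b) (a / b)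
  apply sup_eq_T1
  · rintro s ((rfl | rfl) | (rfl | rfl))
    · exact m1
    · exact one_mem _
    · exact m2
    · exact m3
  · rintro s ((rfl | rfl | rfl | rfl) | (rfl | rfl))
    · have : b⁻¹ = t⁻¹ * (t / b) := by field_simp
      rw [this]; exact mul_mem m1 m4
    · exact m4
    · exact m5
    · exact one_mem _
    · have : x / b ^ 3 = (x / t ^ 3) * (t / b) ^ 3 := by field_simp
      rw [this]; exact mul_mem m2 (pow_mem m4 3)
    · have : y / b ^ 3 = (y / t ^ 3) * (t / b) ^ 3 := by field_simp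
      rw [this]; exact mul_mem m3 (pow_mem m4 3)
  all_goals exact mem_adjoin_of (by simp)

lemma chartY_xx : chart (cub ![1, t] x y) (Sum.inr 0) ⊔
    chart (cub ![1, t, a, b] x y) (Sum.inr 0) = algR0 t x y a b := by
  have e : algR0 t x y a b = chart (cub ![1, t, a, b] x y) (Sum.inr 0) := rfl
  rw [e]
  apply sup_eq_right.2
  apply Algebra.adjoin_mono
  rintro s ⟨u, rfl⟩
  rcases u with ⟨i, j, k⟩ | u
  · refine ⟨Sum.inl (Fin.castLE (by norm_num) i, Fin.castLE (by norm_num) j,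
      Fin.castLE (by norm_num) k), ?_⟩
    have hz : ∀ i : Fin 2, (![1, t, a, b] : Fin 4 → K) (Fin.castLE (by norm_num) i) =
        (![1, t] : Fin 2 → K) i := by
      intro i
      fin_cases i <;> rfl
    show (![1, t, a, b] : Fin 4 → K) _ * (![1, t, a, b] : Fin 4 → K) _ *
      (![1, t, a, b] : Fin 4 → K) _ / x = (![1, t] : Fin 2 → K) _ * (![1, t] : Fin 2 → K) _ *
      (![1, t] : Fin 2 → K) _ / x
    rw [hz, hz, hz]
  · exact ⟨Sum.inr u, rfl⟩

lemma chartY_x2 (hx : x ≠ 0) (ha : a ≠ 0) : chart (cub ![1, t] x y) (Sum.inr 0) ⊔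
    chart (cub ![1, t, a, b] x y) (Sum.inl (2, 2, 2)) = algR1 t x y a b := by
  rw [D2 _ _ _ _ _ ha, ← Algebra.adjoin_union]
  apply adjoin_eq_of
  · rintro s (hs | (rfl | rfl | rfl | rfl) | (rfl | rfl))
    · exact mem_adjoin_of (Or.inl hs)
    · exact mem_adjoin_of (Or.inr (by simp))
    · exact mem_adjoin_of (Or.inr (by simp))
    · exact one_mem _
    · exact mem_adjoin_of (Or.inr (by simp))
    · exact mem_adjoin_of (Or.inr (by simp))
    · have : y / a ^ 3 = (y / x) * (x / a ^ 3) := by field_simp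
      rw [this]
      exact mul_mem (mem_adjoin_of (Or.inl ⟨Sum.inr 1, rfl⟩))
        (mem_adjoin_of (Or.inr (by simp)))
  · rintro s (hs | (rfl | rfl | rfl | rfl))
    · exact mem_adjoin_of (Or.inl hs)
    · exact mem_adjoin_of (Or.inr (by simp))
    · exact mem_adjoin_of (Or.inr (by simp))
    · exact mem_adjoin_of (Or.inr (by simp))
    · exact mem_adjoin_of (Or.inr (by simp))

lemma chartY_x3 (hx : x ≠ 0) (hb : b ≠ 0) : chart (cub ![1, t] x y) (Sum.inr 0) ⊔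
    chart (cub ![1, t, a, b] x y) (Sum.inl (3, 3, 3)) = algR1 t x y b a := by
  rw [D3 _ _ _ _ _ hb, ← Algebra.adjoin_union]
  apply adjoin_eq_of
  · rintro s (hs | (rfl | rfl | rfl | rfl) | (rfl | rfl))
    · exact mem_adjoin_of (Or.inl hs)
    · exact mem_adjoin_of (Or.inr (by simp))
    · exact mem_adjoin_of (Or.inr (by simp))
    · exact mem_adjoin_of (Or.inr (by simp))
    · exact one_mem _
    · exact mem_adjoin_of (Or.inr (by simp))
    · have : y / b ^ 3 = (y / x) * (x / b ^ 3) := by field_simp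
      rw [this]
      exact mul_mem (mem_adjoin_of (Or.inl ⟨Sum.inr 1, rfl⟩))
        (mem_adjoin_of (Or.inr (by simp)))
  · rintro s (hs | (rfl | rfl | rfl | rfl))
    · exact mem_adjoin_of (Or.inl hs)
    · exact mem_adjoin_of (Or.inr (by simp))
    · exact mem_adjoin_of (Or.inr (by simp))
    · exact mem_adjoin_of (Or.inr (by simp))
    · exact mem_adjoin_of (Or.inr (by simp))

end charts

theorem stmt_G7 (hSym : Stmt_Sym) : Stmt_G7 := by
  intro K _ _ t x y a b h p hp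
  obtain ⟨ht, hx, hy, ha, hb⟩ := nonzeros hSym h
  obtain ⟨u, w, huw, hgood⟩ := exists_good_index h p hp
  have hchart : ∀ u w, cub ![1, t] x y u ≠ 0 → cub ![1, t, a, b] x y w ≠ 0 →
      chart (varY h).f (u, w) = chart (cub ![1, t] x y) u ⊔ chart (cub ![1, t, a, b] x y) w :=
    fun u w h1 h2 => chart_tens _ _ _ _ h1 h2
  have hcube : ∀ z : K, z ≠ 0 → z * z * z ≠ 0 := fun z hz => mul_ne_zero (mul_ne_zero hz hz) hz
  have n0 : cub ![1, t] x y (Sum.inl (0, 0, 0)) ≠ 0 := hcube _ one_ne_zero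
  have n1 : cub ![1, t] x y (Sum.inl (1, 1, 1)) ≠ 0 := hcube _ ht
  have nx : cub ![1, t] x y (Sum.inr 0) ≠ 0 := hx
  have N0 : cub ![1, t, a, b] x y (Sum.inl (0, 0, 0)) ≠ 0 := hcube _ one_ne_zero
  have N1 : cub ![1, t, a, b] x y (Sum.inl (1, 1, 1)) ≠ 0 := hcube _ ht
  have N2 : cub ![1, t, a, b] x y (Sum.inl (2, 2, 2)) ≠ 0 := hcube _ ha
  have N3 : cub ![1, t, a, b] x y (Sum.inl (3, 3, 3)) ≠ 0 := hcube _ hb
  have Nx : cub ![1, t, a, b] x y (Sum.inr 0) ≠ 0 := hx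
  have hbt : IsDatum t⁻¹ (x / t ^ 3) (y / t ^ 3) (a / t) (b / t) := (hSym K t x y a b h).2.2.2.1
  have hsw : IsDatum t x y b a := (hSym K t x y a b h).2.1
  rcases hgood with ⟨rfl, rfl | rfl | rfl⟩ | ⟨rfl, rfl | rfl | rfl⟩ | ⟨rfl, rfl | rfl | rfl⟩
  · exact ⟨t, x, y, a, b, h, Or.inl (exists_locEq (varY h) p hp _ huw _
      ((hchart _ _ n0 N0).trans (chartY_00 _ _ _ _ _)))⟩
  · exact ⟨t, x, y, a⁻¹, b / a, (hSym K t x y a b h).2.2.1,
      Or.inl (exists_locEq (varY h) p hp _ huw _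
      ((hchart _ _ n0 N2).trans (chartY_02 _ _ _ _ _ ha)))⟩
  · exact ⟨t, x, y, b⁻¹, a / b, (hSym K t x y b a hsw).2.2.1,
      Or.inl (exists_locEq (varY h) p hp _ huw _
      ((hchart _ _ n0 N3).trans (chartY_03 _ _ _ _ _ hb)))⟩
  · exact ⟨t⁻¹, x / t ^ 3, y / t ^ 3, a / t, b / t, hbt,
      Or.inl (exists_locEq (varY h) p hp _ huw _
      ((hchart _ _ n1 N1).trans (chartY_11 _ _ _ _ _ ht)))⟩
  · have hd := (hSym K _ _ _ _ _ hbt).2.2.1
    have e1 : (a / t)⁻¹ = t / a := by rw [inv_div]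
    have e2 : (b / t) / (a / t) = b / a := by field_simp
    rw [e1, e2] at hd
    exact ⟨t⁻¹, x / t ^ 3, y / t ^ 3, t / a, b / a, hd,
      Or.inl (exists_locEq (varY h) p hp _ huw _
      ((hchart _ _ n1 N2).trans (chartY_12 _ _ _ _ _ ht ha)))⟩
  · have hd := (hSym K _ _ _ _ _ (hSym K _ _ _ _ _ hbt).2.1).2.2.1
    have e1 : (b / t)⁻¹ = t / b := by rw [inv_div]
    have e2 : (a / t) / (b / t) = a / b := by field_simp
    rw [e1, e2] at hd
    exact ⟨t⁻¹, x / t ^ 3, y / t ^ 3, t / b, a / b, hd,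
      Or.inl (exists_locEq (varY h) p hp _ huw _
      ((hchart _ _ n1 N3).trans (chartY_13 _ _ _ _ _ ht hb)))⟩
  · exact ⟨t, x, y, a, b, h, Or.inr (Or.inl (exists_locEq (varY h) p hp _ huw _
      ((hchart _ _ nx Nx).trans (chartY_xx _ _ _ _ _))))⟩
  · exact ⟨t, x, y, a, b, h, Or.inr (Or.inr (exists_locEq (varY h) p hp _ huw _
      ((hchart _ _ nx N2).trans (chartY_x2 _ _ _ _ _ hx ha))))⟩
  · exact ⟨t, x, y, b, a, hsw, Or.inr (Or.inr (exists_locEq (varY h) p hp _ huw _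
      ((hchart _ _ nx N3).trans (chartY_x3 _ _ _ _ _ hx hb))))⟩

end Pool.Agent.MPad0563
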