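import Pool.Agent.Work.MP_ad0563_ag_helper72.Proper

/-!
# MP_ad0563_ag : blocks G6, G7
-/

open MvPolynomial

namespace Pool.Agent.MPad0563

section
variable {K : Type} [Field K] [Algebra ℂ K]

lemma mem_chart {ι : Type} (f : ι → K) (i j : ι) : f j / f i ∈ chart f i :=
  Algebra.subset_adjoin ⟨j, rfl⟩

lemma chart_tens {ι κ : Type} (f : ι → K) (g : κ → K) (i : ι) (j : κ) (hi : f i ≠ 0)
    (hj : g j ≠ 0) : chart (tens f g) (i, j) = chart f i ⊔ chart g j := by
  apply le_antisymm
  · apply Algebra.adjoin_le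
    rintro _ ⟨⟨k, l⟩, rfl⟩
    show f k * g l / (f i * g j) ∈ _
    rw [mul_div_mul_comm]
    have h1 : chart f i ≤ chart f i ⊔ chart g j := le_sup_left
    have h2 : chart g j ≤ chart f i ⊔ chart g j := le_sup_right
    exact mul_mem (h1 (mem_chart f i k)) (h2 (mem_chart g j l))
  · apply sup_le
    · apply Algebra.adjoin_le
      rintro _ ⟨k, rfl⟩
      refine Algebra.subset_adjoin ⟨(k, j), ?_⟩
      show f k * g j / (f i * g j) = _
      rw [mul_div_mul_right _ _ hj]
    · apply Algebra.adjoin_le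
      rintro _ ⟨k, rfl⟩
      refine Algebra.subset_adjoin ⟨(i, k), ?_⟩
      show f i * g k / (f i * g j) = _
      rw [mul_div_mul_left _ _ hi]

lemma chart_cub_inl {m : ℕ} (z : Fin m → K) (x y : K) (l : Fin m) (hl : z l ≠ 0) :
    chart (cub z x y) (Sum.inl (l, l, l)) =
      Algebra.adjoin ℂ ((Set.range fun i => z i / z l) ∪ {x / z l ^ 3, y / z l ^ 3}) := by
  apply le_antisymm
  · apply Algebra.adjoin_le
    rintro _ ⟨u, rfl⟩
    rcases u with ⟨i, j, k⟩ | u
    · show z i * z j * z k / (z l * z l * z l) ∈ _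
      have : z i * z j * z k / (z l * z l * z l) = (z i / z l) * (z j / z l) * (z k / z l) := by
        field_simp
      rw [this]
      have h : ∀ i, z i / z l ∈ Algebra.adjoin ℂ ((Set.range fun i => z i / z l) ∪
          {x / z l ^ 3, y / z l ^ 3}) := fun i => Algebra.subset_adjoin (Or.inl ⟨i, rfl⟩)
      exact mul_mem (mul_mem (h i) (h j)) (h k)
    · have e : z l * z l * z l = z l ^ 3 := by ring
      fin_cases u
      · show x / (z l * z l * z l) ∈ _
        rw [e]
        exact Algebra.subset_adjoin (Or.inr (by simp))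
      · show y / (z l * z l * z l) ∈ _
        rw [e]
        exact Algebra.subset_adjoin (Or.inr (by simp))
  · have e : z l * z l * z l = z l ^ 3 := by ring
    apply Algebra.adjoin_le
    rintro _ (⟨i, rfl⟩ | rfl | rfl)
    · refine Algebra.subset_adjoin ⟨Sum.inl (i, l, l), ?_⟩
      show z i * z l * z l / (z l * z l * z l) = _
      field_simp
    · refine Algebra.subset_adjoin ⟨Sum.inr 0, ?_⟩
      show x / (z l * z l * z l) = _
      rw [e]
    · refine Algebra.subset_adjoin ⟨Sum.inr 1, ?_⟩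
      show y / (z l * z l * z l) = _
      rw [e]

lemma chart_cub_inr0 {m : ℕ} (z : Fin m → K) (x y : K) (l : Fin m) (hl : z l ≠ 0) (hx : x ≠ 0) :
    chart z l ⊔ chart (cub z x y) (Sum.inr 0) =
      Algebra.adjoin ℂ ((Set.range fun i => z i / z l) ∪ {z l ^ 3 / x, y / x}) := by
  have h : ∀ i, z i / z l ∈ Algebra.adjoin ℂ ((Set.range fun i => z i / z l) ∪
      {z l ^ 3 / x, y / x}) := fun i => Algebra.subset_adjoin (Or.inl ⟨i, rfl⟩)
  have h2 : z l ^ 3 / x ∈ Algebra.adjoin ℂ ((Set.range fun i => z i / z l) ∪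
      {z l ^ 3 / x, y / x}) := Algebra.subset_adjoin (Or.inr (by simp))
  apply le_antisymm
  · apply sup_le
    · exact Algebra.adjoin_mono Set.subset_union_left
    · apply Algebra.adjoin_le
      rintro _ ⟨u, rfl⟩
      rcases u with ⟨i, j, k⟩ | u
      · show z i * z j * z k / x ∈ _
        have : z i * z j * z k / x = (z i / z l) * (z j / z l) * (z k / z l) * (z l ^ 3 / x) := by
          field_simp
        rw [this]
        exact mul_mem (mul_mem (mul_mem (h i) (h j)) (h k)) h2
      · fin_cases u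
        · show x / x ∈ _
          rw [div_self hx]
          exact one_mem _
        · exact Algebra.subset_adjoin (Or.inr (by simp [cub]))
  · apply Algebra.adjoin_le
    have h3 : chart (cub z x y) (Sum.inr 0) ≤ chart z l ⊔ chart (cub z x y) (Sum.inr 0) :=
      le_sup_right
    have h4 : chart z l ≤ chart z l ⊔ chart (cub z x y) (Sum.inr 0) := le_sup_left
    rintro _ (⟨i, rfl⟩ | rfl | rfl)
    · exact h4 (mem_chart z l i)
    · apply h3
      refine Algebra.subset_adjoin ⟨Sum.inl (l, l, l), ?_⟩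
      show z l * z l * z l / x = _
      ring
    · apply h3
      refine Algebra.subset_adjoin ⟨Sum.inr 1, rfl⟩

lemma chart_cub_inr1 {m : ℕ} (z : Fin m → K) (x y : K) (l : Fin m) (hl : z l ≠ 0) (hy : y ≠ 0) :
    chart z l ⊔ chart (cub z x y) (Sum.inr 1) =
      Algebra.adjoin ℂ ((Set.range fun i => z i / z l) ∪ {z l ^ 3 / y, x / y}) := by
  have e : chart (cub z x y) (Sum.inr 1) = chart (cub z y x) (Sum.inr 0) := by
    have : (Set.range fun j => cub z x y j / cub z x y (Sum.inr 1)) =
        Set.range fun j => cub z y x j / cub z y x (Sum.inr 0) := by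
      ext w
      constructor
      · rintro ⟨u, rfl⟩
        rcases u with u | u
        · exact ⟨Sum.inl u, rfl⟩
        · fin_cases u
          · exact ⟨Sum.inr 1, rfl⟩
          · exact ⟨Sum.inr 0, rfl⟩
      · rintro ⟨u, rfl⟩
        rcases u with u | u
        · exact ⟨Sum.inl u, rfl⟩
        · fin_cases u
          · exact ⟨Sum.inr 1, rfl⟩
          · exact ⟨Sum.inr 0, rfl⟩
    rw [chart, this]
  rw [e, chart_cub_inr0 z y x l hl hy]

/-- the local ring in a chart -/
lemma exists_locEq {ι : Type} (X : ProjVar ι) (p : PSpace ι) (hp : p ∈ X.pts) (i : ι)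
    (hi : p.rep i ≠ 0) (A : Subalgebra ℂ X.K) (hA : chart X.f i = A) :
    ∃ χ : A →ₐ[ℂ] ℂ, LocEq (X.localRing p) A χ := by
  subst hA
  have hp' : Projectivization.mk ℂ p.rep p.rep_nonzero ∈ closedPts X.f := by rwa [p.mk_rep]
  obtain ⟨h1, χ, hχ⟩ := stmt_A1 ι X.K X.f p.rep p.rep_nonzero i hi hp'
  refine ⟨χ, ?_⟩
  have := stmt_A3 ι X p.rep p.rep_nonzero i hi hp' χ hχ
  rwa [p.mk_rep] at this

end

/-- A second form of the symmetry of the datum. -/
lemma datum_inv {K : Type} [Field K] [Algebra ℂ K] {t x y a b : K} (h : IsDatum t x y a b)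
    (ht : t ≠ 0) : IsDatum t⁻¹ (x / t ^ 3) (y / t ^ 3) a b := by
  refine ⟨?_, h.trdeg, ?_⟩
  · have := h.rel
    field_simp
    linear_combination this
  · rw [eq_top_iff, ← h.gen]
    apply IntermediateField.adjoin_le_iff.2
    have ht' : t ∈ IntermediateField.adjoin ℂ ({t⁻¹, x / t ^ 3, y / t ^ 3, a, b} : Set K) := by
      have : t⁻¹ ∈ IntermediateField.adjoin ℂ ({t⁻¹, x / t ^ 3, y / t ^ 3, a, b} : Set K) :=
        IntermediateField.subset_adjoin _ _ (by simp)
      simpa using inv_mem this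
    rintro s (rfl | rfl | rfl | rfl | rfl)
    · exact ht'
    · have : s / t ^ 3 ∈ IntermediateField.adjoin ℂ ({t⁻¹, s / t ^ 3, y / t ^ 3, a, b} : Set K) :=
        IntermediateField.subset_adjoin _ _ (by simp)
      have h2 := mul_mem this (pow_mem ht' 3)
      rwa [div_mul_cancel₀ _ (pow_ne_zero 3 ht)] at h2
    · have : s / t ^ 3 ∈ IntermediateField.adjoin ℂ ({t⁻¹, x / t ^ 3, s / t ^ 3, a, b} : Set K) :=
        IntermediateField.subset_adjoin _ _ (by simp)
      have h2 := mul_mem this (pow_mem ht' 3)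
      rwa [div_mul_cancel₀ _ (pow_ne_zero 3 ht)] at h2
    · exact IntermediateField.subset_adjoin _ _ (by simp)
    · exact IntermediateField.subset_adjoin _ _ (by simp)

end Pool.Agent.MPad0563
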