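import Pool.Agent.Work.MP_ad0563_ag_helper72.Charts

/-!
# MP_ad0563_ag : block G6
-/

open MvPolynomial

namespace Pool.Agent.MPad0563

section
variable {K : Type} [Field K] [Algebra ℂ K]

lemma sup_chart_cub_inl {m : ℕ} (z : Fin m → K) (x y : K) (l : Fin m) (hl : z l ≠ 0) :
    chart z l ⊔ chart (cub z x y) (Sum.inl (l, l, l)) =
      Algebra.adjoin ℂ ((Set.range fun i => z i / z l) ∪ {x / z l ^ 3, y / z l ^ 3}) := by
  rw [chart_cub_inl z x y l hl]
  exact sup_eq_right.2 (Algebra.adjoin_mono Set.subset_union_left)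

lemma nonzeros (hSym : Stmt_Sym) {t x y a b : K} (h : IsDatum t x y a b) :
    t ≠ 0 ∧ x ≠ 0 ∧ y ≠ 0 ∧ a ≠ 0 ∧ b ≠ 0 := by
  obtain ⟨-, -, -, -, h1, h2⟩ := hSym K t x y a b h
  exact ⟨h1.ne_zero 0, h1.ne_zero 1, h2.ne_zero 1, h1.ne_zero 2, h1.ne_zero 3⟩

lemma charts_t (t x y : K) (ht : t ≠ 0) (hx : x ≠ 0) (hy : y ≠ 0) (i : Fin 2) :
    ∃ t' x' y' : K, x' ≠ 0 ∧ y' ≠ 0 ∧
      (∀ a b, IsDatum t x y a b → IsDatum t' x' y' a b) ∧
      chart ![1, t] i ⊔ chart (cub ![1, t] x y) (Sum.inl (i, i, i)) =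
        Algebra.adjoin ℂ {t', x', y'} ∧
      chart ![1, t] i ⊔ chart (cub ![1, t] x y) (Sum.inr 0) =
        Algebra.adjoin ℂ {t', x'⁻¹, y' / x'} ∧
      chart ![1, t] i ⊔ chart (cub ![1, t] x y) (Sum.inr 1) =
        Algebra.adjoin ℂ {t', y'⁻¹, x' / y'} := by
  have e1 : ∀ u v : K, Algebra.adjoin ℂ ((Set.range fun i : Fin 2 => ![1, t] i / ![1, t] 0) ∪
      {u, v}) = Algebra.adjoin ℂ {t, u, v} := by
    intro u v
    apply le_antisymm
    · apply Algebra.adjoin_le
      rintro _ (⟨i, rfl⟩ | hs)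
      · fin_cases i
        · simp
        · exact Algebra.subset_adjoin (by simp)
      · exact Algebra.subset_adjoin (by
          rcases hs with rfl | rfl
          · simp
          · simp)
    · apply Algebra.adjoin_mono
      rintro s (rfl | rfl | rfl)
      · exact Or.inl ⟨1, by simp⟩
      · exact Or.inr (by simp)
      · exact Or.inr (by simp)
  have e2 : ∀ u v : K, Algebra.adjoin ℂ ((Set.range fun i : Fin 2 => ![1, t] i / ![1, t] 1) ∪
      {u, v}) = Algebra.adjoin ℂ {t⁻¹, u, v} := by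
    intro u v
    apply le_antisymm
    · apply Algebra.adjoin_le
      rintro _ (⟨i, rfl⟩ | hs)
      · fin_cases i
        · exact Algebra.subset_adjoin (by simp)
        · simp [ht]
      · exact Algebra.subset_adjoin (by
          rcases hs with rfl | rfl
          · simp
          · simp)
    · apply Algebra.adjoin_mono
      rintro s (rfl | rfl | rfl)
      · exact Or.inl ⟨0, by simp⟩
      · exact Or.inr (by simp)
      · exact Or.inr (by simp)
  fin_cases i
  · refine ⟨t, x, y, hx, hy, fun _ _ h => h, ?_, ?_, ?_⟩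
    · show chart ![1, t] 0 ⊔ chart (cub ![1, t] x y) (Sum.inl (0, 0, 0)) = _
      rw [sup_chart_cub_inl _ _ _ _ (by simp), e1]
      simp
    · show chart ![1, t] 0 ⊔ chart (cub ![1, t] x y) (Sum.inr 0) = _
      rw [chart_cub_inr0 _ _ _ _ (by simp) hx, e1]
      simp
    · show chart ![1, t] 0 ⊔ chart (cub ![1, t] x y) (Sum.inr 1) = _
      rw [chart_cub_inr1 _ _ _ _ (by simp) hy, e1]
      simp
  · refine ⟨t⁻¹, x / t ^ 3, y / t ^ 3, div_ne_zero hx (pow_ne_zero 3 ht),
      div_ne_zero hy (pow_ne_zero 3 ht), fun _ _ h => datum_inv h ht, ?_, ?_, ?_⟩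
    · show chart ![1, t] 1 ⊔ chart (cub ![1, t] x y) (Sum.inl (1, 1, 1)) = _
      rw [sup_chart_cub_inl _ _ _ _ (by simpa using ht), e2]
      simp
    · show chart ![1, t] 1 ⊔ chart (cub ![1, t] x y) (Sum.inr 0) = _
      rw [chart_cub_inr0 _ _ _ _ (by simpa using ht) hx, e2]
      have e3 : (x / t ^ 3)⁻¹ = t ^ 3 / x := by rw [inv_div]
      have e4 : y / t ^ 3 / (x / t ^ 3) = y / x := by
        rw [div_div_div_cancel_right₀ (pow_ne_zero 3 ht)]
      rw [e3, e4]
      simp
    · show chart ![1, t] 1 ⊔ chart (cub ![1, t] x y) (Sum.inr 1) = _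
      rw [chart_cub_inr1 _ _ _ _ (by simpa using ht) hy, e2]
      have e3 : (y / t ^ 3)⁻¹ = t ^ 3 / y := by rw [inv_div]
      have e4 : x / t ^ 3 / (y / t ^ 3) = x / y := by
        rw [div_div_div_cancel_right₀ (pow_ne_zero 3 ht)]
      rw [e3, e4]
      simp

lemma charts_ab (hSym : Stmt_Sym) (a b : K) (ha : a ≠ 0) (hb : b ≠ 0) (m : Fin 3) :
    ∃ a' b' : K, (∀ t x y, IsDatum t x y a b → IsDatum t x y a' b') ∧
      chart ![1, a, b] m = Algebra.adjoin ℂ {a', b'} := by
  fin_cases m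
  · refine ⟨a, b, fun _ _ _ h => h, ?_⟩
    apply le_antisymm
    · apply Algebra.adjoin_le
      rintro _ ⟨i, rfl⟩
      fin_cases i
      · simp
      · exact Algebra.subset_adjoin (by simp)
      · exact Algebra.subset_adjoin (by simp)
    · apply Algebra.adjoin_mono
      rintro s (rfl | rfl)
      · exact ⟨1, by simp⟩
      · exact ⟨2, by simp⟩
  · refine ⟨a⁻¹, b / a, fun t x y h => (hSym K t x y a b h).2.2.1, ?_⟩
    apply le_antisymm
    · apply Algebra.adjoin_le
      rintro _ ⟨i, rfl⟩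
      fin_cases i
      · exact Algebra.subset_adjoin (by simp)
      · simp [ha]
      · exact Algebra.subset_adjoin (by simp)
    · apply Algebra.adjoin_mono
      rintro s (rfl | rfl)
      · exact ⟨0, by simp⟩
      · exact ⟨2, by simp⟩
  · refine ⟨b⁻¹, a / b, fun t x y h =>
      (hSym K t x y b a (hSym K t x y a b h).2.1).2.2.1, ?_⟩
    apply le_antisymm
    · apply Algebra.adjoin_le
      rintro _ ⟨i, rfl⟩
      fin_cases i
      · exact Algebra.subset_adjoin (by simp)
      · exact Algebra.subset_adjoin (by simp)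
      · simp [hb]
    · apply Algebra.adjoin_mono
      rintro s (rfl | rfl)
      · exact ⟨0, by simp⟩
      · exact ⟨1, by simp⟩

end

theorem stmt_G6 (hSym : Stmt_Sym) : Stmt_G6 := by
  intro K _ _ t x y a b h p hp
  obtain ⟨ht, hx, hy, ha, hb⟩ := nonzeros hSym h
  -- step 1: a good index
  obtain ⟨i, m, u, hu0, hu⟩ : ∃ (i : Fin 2) (m : Fin 3) (u : Cub 2), p.rep (i, (u, m)) ≠ 0 ∧
      (u = Sum.inl (i, i, i) ∨ u = Sum.inr 0 ∨ u = Sum.inr 1) := by
    obtain ⟨⟨i, u, m⟩, hv⟩ : ∃ i, p.rep i ≠ 0 := Function.ne_iff.1 p.rep_nonzero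
    rcases u with ⟨j, k, l⟩ | u
    · refine ⟨i, m, Sum.inl (i, i, i), ?_, Or.inl rfl⟩
      have hc : ∀ i j k l m, coordW t x y a b (i, (Sum.inl (j, k, l), m)) =
          ![1, t] i * ((![1, t] j * ![1, t] k * ![1, t] l) * ![1, a, b] m) :=
        fun _ _ _ _ _ => rfl
      have h0 : aeval (coordW t x y a b) (X (i, (Sum.inl (j, k, l), m)) ^ 4 -
          X (i, (Sum.inl (i, i, i), m)) * X (j, (Sum.inl (j, j, j), m)) *
          X (k, (Sum.inl (k, k, k), m)) * X (l, (Sum.inl (l, l, l), m)) :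
          MvPolynomial (Fin 2 × (Cub 2 × Fin 3)) ℂ) = 0 := by
        simp only [map_sub, map_mul, map_pow, aeval_X, hc]
        ring
      have hrel := hp 4 _
        (((isHomogeneous_X ℂ _).pow 4).sub ((((isHomogeneous_X ℂ _).mul
          (isHomogeneous_X ℂ _)).mul (isHomogeneous_X ℂ _)).mul (isHomogeneous_X ℂ _))) h0
      simp only [map_sub, map_mul, map_pow, eval_X] at hrel
      intro h0
      rw [h0, zero_mul, zero_mul, zero_mul, sub_zero] at hrel
      exact hv (pow_eq_zero_iff (by norm_num) |>.1 hrel)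
    · refine ⟨i, m, Sum.inr u, hv, ?_⟩
      fin_cases u
      · exact Or.inr (Or.inl rfl)
      · exact Or.inr (Or.inr rfl)
  obtain ⟨t', x', y', hx', hy', hD, hc1, hc2, hc3⟩ := charts_t t x y ht hx hy i
  obtain ⟨a', b', hD', hc4⟩ := charts_ab hSym a b ha hb m
  have hdat : IsDatum t' x' y' a' b' := hD' _ _ _ (hD _ _ h)
  have hi : (![1, t] : Fin 2 → K) i ≠ 0 := by
    fin_cases i
    · simp
    · simpa using ht
  have hm : (![1, a, b] : Fin 3 → K) m ≠ 0 := by
    fin_cases m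
    · simp
    · simpa using ha
    · simpa using hb
  have hcu : cub ![1, t] x y u ≠ 0 := by
    rcases hu with rfl | rfl | rfl
    · exact mul_ne_zero (mul_ne_zero hi hi) hi
    · exact hx
    · exact hy
  have hchart : chart (varW h).f (i, (u, m)) =
      (chart ![1, t] i ⊔ chart (cub ![1, t] x y) u) ⊔ chart ![1, a, b] m := by
    show chart (tens ![1, t] (tens (cub ![1, t] x y) ![1, a, b])) (i, (u, m)) = _
    rw [chart_tens _ _ _ _ hi (by exact mul_ne_zero hcu hm), chart_tens _ _ _ _ hcu hm, sup_assoc]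
  rcases hu with rfl | rfl | rfl
  · refine ⟨t', x', y', a', b', hdat, Or.inl (exists_locEq (varW h) p hp _ hu0 _ ?_)⟩
    rw [hchart, hc1, hc4, ← Algebra.adjoin_union]
    show _ = Algebra.adjoin ℂ {t', x', y', a', b'}
    congr 1
    ext z
    simp only [Set.mem_union, Set.mem_insert_iff, Set.mem_singleton_iff]
    tauto
  · refine ⟨t', x', y', a', b', hdat, Or.inr (exists_locEq (varW h) p hp _ hu0 _ ?_)⟩
    rw [hchart, hc2, hc4, ← Algebra.adjoin_union]
    show _ = Algebra.adjoin ℂ {t', x'⁻¹, y' / x', a', b'}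
    congr 1
    ext z
    simp only [Set.mem_union, Set.mem_insert_iff, Set.mem_singleton_iff]
    tauto
  · refine ⟨t', y', x', a', b', (hSym K _ _ _ _ _ hdat).1,
      Or.inr (exists_locEq (varW h) p hp _ hu0 _ ?_)⟩
    rw [hchart, hc3, hc4, ← Algebra.adjoin_union]
    show _ = Algebra.adjoin ℂ {t', y'⁻¹, x' / y', a', b'}
    congr 1
    ext z
    simp only [Set.mem_union, Set.mem_insert_iff, Set.mem_singleton_iff]
    tauto

end Pool.Agent.MPad0563
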